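import Pool.Agent.H119R3.DX.Defs

/-! BADD (helper357): bilinearity of `B`. -/

namespace Pool.Agent.H119R3.DX

open MvPolynomial

lemma BADD_l {K : Type} [Field K] {n : ℕ} : ∀ (r : ℕ) (f f' g : P K n),
    B r (f + f') g = B r f g + B r f' g
  | 0, f, f', g => by simp only [B, add_mul]
  | r + 1, f, f', g => by
    simp only [B, map_add, BADD_l r, mul_add, Finset.sum_add_distrib]

lemma BADD_r {K : Type} [Field K] {n : ℕ} : ∀ (r : ℕ) (f g g' : P K n),
    B r f (g + g') = B r f g + B r f g'
  | 0, f, g, g' => by simp only [B, mul_add]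
  | r + 1, f, g, g' => by
    simp only [B, map_add, BADD_r r, mul_add, Finset.sum_add_distrib]

lemma BADD_cl {K : Type} [Field K] {n : ℕ} : ∀ (r : ℕ) (c : K) (f g : P K n),
    B r (C c * f) g = C c * B r f g
  | 0, c, f, g => by simp only [B, mul_assoc]
  | r + 1, c, f, g => by
    simp only [B, pderiv_C_mul, BADD_cl r, Finset.mul_sum]
    exact Finset.sum_congr rfl fun _ _ => Finset.sum_congr rfl fun _ _ => by ring

lemma BADD_cr {K : Type} [Field K] {n : ℕ} : ∀ (r : ℕ) (c : K) (f g : P K n),
    B r f (C c * g) = C c * B r f g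
  | 0, c, f, g => by simp only [B]; ring
  | r + 1, c, f, g => by
    simp only [B, pderiv_C_mul, BADD_cr r, Finset.mul_sum]
    exact Finset.sum_congr rfl fun _ _ => Finset.sum_congr rfl fun _ _ => by ring

/-- `B r · g` as an additive map -/
noncomputable def BADD_homl {K : Type} [Field K] {n : ℕ} (r : ℕ) (g : P K n) : P K n →+ P K n :=
  AddMonoidHom.mk' (fun f => B r f g) (fun f f' => BADD_l r f f' g)

/-- `B r f ·` as an additive map -/
noncomputable def BADD_homr {K : Type} [Field K] {n : ℕ} (r : ℕ) (f : P K n) : P K n →+ P K n :=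
  AddMonoidHom.mk' (fun g => B r f g) (fun g g' => BADD_r r f g g')

theorem t_BADD : S_BADD := by
  intro K _ n r
  refine ⟨BADD_l r, BADD_r r, BADD_cl r, BADD_cr r, fun f g => ?_, fun f g => ?_⟩
  · exact map_sum (BADD_homl r g) f Finset.univ
  · exact map_sum (BADD_homr r f) g Finset.univ

end Pool.Agent.H119R3.DX
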