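import Pool.Agent.H119R3.DX.Defs

/-! Leibniz rule for the bidifferential operators. -/

set_option autoImplicit false

namespace Pool.Agent.H119R3.DX

open MvPolynomial

theorem bder_comm (K : Type) [Field K] {n : ℕ} (i j : Ix n) (f : P K n) :
    pderiv i (pderiv j f) = pderiv j (pderiv i f) := by
  have h : ⁅(pderiv i : Derivation K (P K n) (P K n)), (pderiv j : Derivation K (P K n) (P K n))⁆ = 0 := by
    refine MvPolynomial.derivation_ext fun k => ?_
    rw [Derivation.commutator_apply, pderiv_X, pderiv_X]
    simp only [Pi.single_apply, Derivation.coe_zero, Pi.zero_apply]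
    split_ifs <;> simp
  have h2 := congrArg (fun D => D f) h
  simp only [Derivation.commutator_apply, Derivation.coe_zero, Pi.zero_apply] at h2
  exact sub_eq_zero.1 h2

theorem bder_badd1 (K : Type) [Field K] {n : ℕ} (r : ℕ) (f g h : P K n) :
    B r f (g + h) = B r f g + B r f h := by
  induction r generalizing f g h with
  | zero => simp only [B]; ring
  | succ r ih =>
    simp only [B, map_add, ih, mul_add, Finset.sum_add_distrib]

theorem t_BDER : S_BDER := by
  intro K _ n r
  induction r with
  | zero =>
    intro m f g
    simp only [B]
    rw [pderiv_mul]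
  | succ r ih =>
    intro m f g
    simp only [B, map_sum]
    rw [← Finset.sum_add_distrib]
    refine Finset.sum_congr rfl fun a _ => ?_
    rw [← Finset.sum_add_distrib]
    refine Finset.sum_congr rfl fun b _ => ?_
    rw [pderiv_C_mul, ih, bder_comm K m a f, bder_comm K m b g]
    simp only [mul_add]

end Pool.Agent.H119R3.DX
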