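import Pool.Agent.H119R3.DX.Defs

namespace Pool.Agent.H119R3.DX

open MvPolynomial

theorem BHOMx_zero {K : Type} [Field K] {n : ℕ} {f : P K n} (hf : f.IsHomogeneous 0)
    (a : Ix n) : pderiv a f = 0 := by
  have h := (totalDegree_zero_iff_isHomogeneous _).2 hf
  rw [totalDegree_eq_zero_iff_eq_C] at h
  rw [h]
  exact pderiv_C

theorem BHOMx_right {K : Type} [Field K] {n : ℕ} (r : ℕ) : ∀ (f : P K n), B r f 0 = 0 := by
  induction r with
  | zero => intro f; simp [B]
  | succ r ih => intro f; simp [B, ih]

theorem BHOMx_left {K : Type} [Field K] {n : ℕ} (r : ℕ) : ∀ (f : P K n), B r 0 f = 0 := by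
  induction r with
  | zero => intro f; simp [B]
  | succ r ih => intro f; simp [B, ih]

theorem BHOMx_pd {K : Type} [Field K] {n : ℕ} {f : P K n} {p : ℕ} (hf : f.IsHomogeneous (p + 1))
    (a : Ix n) : (pderiv a f).IsHomogeneous p := by
  have := hf.pderiv (i := a)
  simpa using this

theorem t_BZERO : S_BZERO := by
  intro K _ n r
  induction r with
  | zero => intro q f g _ h; omega
  | succ r ih =>
    intro q f g hg hq
    simp only [B]
    refine Finset.sum_eq_zero fun a _ => Finset.sum_eq_zero fun b _ => ?_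
    rcases q with _ | q
    · rw [BHOMx_zero hg, BHOMx_right, mul_zero]
    · rw [ih q _ _ (BHOMx_pd hg b) (by omega), mul_zero]

theorem t_BHOM : S_BHOM := by
  intro K _ n r
  induction r with
  | zero =>
    intro p q f g hf hg
    refine ⟨fun _ _ => ?_, fun h => by omega⟩
    simp only [B, mul_zero, Nat.sub_zero]
    exact hf.mul hg
  | succ r ih =>
    intro p q f g hf hg
    constructor
    · intro hp hq
      simp only [B]
      refine IsHomogeneous.sum _ _ _ fun a _ => IsHomogeneous.sum _ _ _ fun b _ => ?_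
      obtain ⟨p, rfl⟩ : ∃ p', p = p' + 1 := ⟨p - 1, by omega⟩
      obtain ⟨q, rfl⟩ : ∃ q', q = q' + 1 := ⟨q - 1, by omega⟩
      have := (ih p q _ _ (BHOMx_pd hf a) (BHOMx_pd hg b)).1 (by omega) (by omega)
      have h2 : p + 1 + (q + 1) - 2 * (r + 1) = p + q - 2 * r := by omega
      rw [h2]
      exact this.C_mul _
    · intro h
      simp only [B]
      refine Finset.sum_eq_zero fun a _ => Finset.sum_eq_zero fun b _ => ?_
      rcases p with _ | p
      · rw [BHOMx_zero hf, BHOMx_left, mul_zero]
      · rcases q with _ | q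
        · rw [BHOMx_zero hg, BHOMx_right, mul_zero]
        · rw [(ih p q _ _ (BHOMx_pd hf a) (BHOMx_pd hg b)).2 (by omega), mul_zero]

end Pool.Agent.H119R3.DX
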