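import Pool.Agent.H119R3.DX.Defs

/-! Antisymmetry of the bidifferential operators. -/

set_option autoImplicit false

namespace Pool.Agent.H119R3.DX

open MvPolynomial

theorem bsym_om (K : Type) [Field K] {n : ℕ} (a b : Ix n) : om K b a = - om K a b := by
  rcases a with i | i <;> rcases b with j | j
  · simp [om]
  · by_cases h : i = j
    · subst h; simp [om]
    · have h' : ¬ j = i := fun e => h e.symm
      simp [om, h, h']
  · by_cases h : i = j
    · subst h; simp [om]
    · have h' : ¬ j = i := fun e => h e.symm
      simp [om, h, h']
  · simp [om]

theorem t_BSYM : S_BSYM := by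
  intro K _ n r
  induction r with
  | zero => intro f g; simp only [B, pow_zero, one_mul]; ring
  | succ r ih =>
    intro f g
    simp only [B]
    rw [Finset.sum_comm, Finset.mul_sum]
    refine Finset.sum_congr rfl fun a _ => ?_
    rw [Finset.mul_sum]
    refine Finset.sum_congr rfl fun b _ => ?_
    rw [ih (pderiv a f) (pderiv b g), bsym_om K a b, map_neg]
    ring

end Pool.Agent.H119R3.DX
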