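import Pool.Agent.H119R3.DX.Defs

/-! BX: multiplication by a variable in the bidifferential operators. -/

namespace Pool.Agent.H119R3.DX

open MvPolynomial

theorem bx_comm {K : Type} [Field K] {n : ℕ} (a b : Ix n) (f : P K n) :
    pderiv a (pderiv b f) = pderiv b (pderiv a f) := by
  have h : (⁅(pderiv a : Derivation K (MvPolynomial (Ix n) K) (MvPolynomial (Ix n) K)),
      (pderiv b : Derivation K (MvPolynomial (Ix n) K) (MvPolynomial (Ix n) K))⁆) = 0 := by
    apply MvPolynomial.derivation_ext
    intro i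
    rw [Derivation.commutator_apply]
    classical
    rw [pderiv_X, pderiv_X]
    rcases eq_or_ne i b with h1 | h1 <;> rcases eq_or_ne i a with h2 | h2 <;>
      simp [h1, h2, Pi.single_apply]
    all_goals split_ifs <;> simp
  have h2 := Derivation.congr_fun h f
  rw [Derivation.commutator_apply] at h2
  simpa [sub_eq_zero] using h2

theorem bx_X {K : Type} [Field K] {n : ℕ} (a i : Ix n) (f : P K n) :
    pderiv a (X i * f) = C (if a = i then 1 else 0) * f + X i * pderiv a f := by
  classical
  rw [pderiv_mul, pderiv_X, Pi.single_apply]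
  by_cases h : a = i
  · simp [h]
  · simp [h, Ne.symm h]

theorem bx_step (h : S_BADD) {K : Type} [Field K] {n : ℕ} (r : ℕ) (i : Ix n) (f g : P K n) :
    B (r + 1) (X i * f) g = (∑ b, C (om K i b) * B r f (pderiv b g)) +
      ∑ a, ∑ b, C (om K a b) * B r (X i * pderiv a f) (pderiv b g) := by
  obtain ⟨h1, -, h3, -⟩ := h K n r
  have e : B (r + 1) (X i * f) g =
      ∑ a, ∑ b, C (om K a b) * B r (pderiv a (X i * f)) (pderiv b g) := rfl
  rw [e]
  simp_rw [bx_X, h1, h3, mul_add, Finset.sum_add_distrib]
  congr 1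
  rw [Finset.sum_eq_single i]
  · simp
  · intro a _ hai
    simp [hai]
  · simp

theorem t_BX (h : S_BADD) : S_BX := by
  intro K _ n r i
  induction r with
  | zero =>
    intro f g
    rw [bx_step h]
    have e : B 1 f g = ∑ a, ∑ b, C (om K a b) * (pderiv a f * pderiv b g) := rfl
    have e1 : ∀ a b, B 0 (X i * pderiv a f) (pderiv b g) = X i * (pderiv a f * pderiv b g) :=
      fun a b => by
        show X i * pderiv a f * pderiv b g = _
        ring
    rw [zero_add, e]
    simp_rw [e1, Finset.mul_sum]
    rw [add_comm]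
    congr 1
    · refine Finset.sum_congr rfl fun a _ => Finset.sum_congr rfl fun b _ => ?_
      ring
    · simp
  | succ r ih =>
    intro f g
    rw [bx_step h]
    have e : B (r + 1 + 1) f g =
        ∑ a, ∑ b, C (om K a b) * B (r + 1) (pderiv a f) (pderiv b g) := rfl
    have e2 : ∀ c, B (r + 1) f (pderiv c g) =
        ∑ a, ∑ b, C (om K a b) * B r (pderiv a f) (pderiv b (pderiv c g)) := fun _ => rfl
    simp_rw [ih, mul_add, Finset.sum_add_distrib]
    have s1 : ∑ a, ∑ b, C (om K a b) * (X i * B (r + 1) (pderiv a f) (pderiv b g)) =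
        X i * B (r + 1 + 1) f g := by
      rw [e]
      simp_rw [Finset.mul_sum]
      refine Finset.sum_congr rfl fun a _ => Finset.sum_congr rfl fun b _ => ?_
      ring
    have s2 : ∑ a, ∑ b, C (om K a b) * (C ((r : K) + 1) *
        ∑ c, C (om K i c) * B r (pderiv a f) (pderiv c (pderiv b g))) =
        C ((r : K) + 1) * ∑ c, C (om K i c) * B (r + 1) f (pderiv c g) := by
      simp_rw [e2, Finset.mul_sum]
      rw [Finset.sum_comm]
      have s3 : ∀ F : Ix n → Ix n → Ix n → P K n,
          ∑ b, ∑ a, ∑ c, F a b c = ∑ c, ∑ a, ∑ b, F a b c := by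
        intro F
        calc ∑ b, ∑ a, ∑ c, F a b c = ∑ b, ∑ c, ∑ a, F a b c :=
              Finset.sum_congr rfl fun b _ => Finset.sum_comm
          _ = ∑ c, ∑ b, ∑ a, F a b c := Finset.sum_comm
          _ = ∑ c, ∑ a, ∑ b, F a b c := Finset.sum_congr rfl fun c _ => Finset.sum_comm
      rw [s3 (fun a b c => C (om K a b) * (C ((r : K) + 1) *
        (C (om K i c) * B r (pderiv a f) (pderiv c (pderiv b g)))))]
      refine Finset.sum_congr rfl fun c _ => Finset.sum_congr rfl fun a _ =>
        Finset.sum_congr rfl fun b _ => ?_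
      rw [bx_comm c b g]
      ring
    rw [s1, s2]
    push_cast
    simp only [map_add, C_1]
    ring

end Pool.Agent.H119R3.DX
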