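import Pool.Agent.H119R3.DX.Defs

/-!
# Endomorphisms with the identity as linear part
-/

namespace Pool.Agent.H119R3.DX

open MvPolynomial

theorem exists_Lam (h0 : S_LREL) (h1 : S_LIFT) (K : Type) [Field K] [CharZero K] (n : ℕ) :
    ∃ Lam : Weyl K n →ₐ[K] Module.End K (P K n), ∀ g, Lam (y g) = Lop g :=
  h1 K n (Module.End K (P K n)) (fun g => Lop g) (fun g h => h0 K n g h)

theorem t_ID (h0 : S_LREL) (h1 : S_LIFT) (hcy : S_CY) (hB : S_BADD) (hE : S_EULER) (hW : S_WH)
    (hC : S_COMM) (hS : S_SEP) (hH : S_HAM) (hP : S_PBW) (hX : S_EXP) : S_ID := by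
  intro K _ _ n d hd hd4 φ hφ
  obtain ⟨Lam, hLam⟩ := exists_Lam h0 h1 K n
  set D : Ix n → Weyl K n := fun g => φ (y g) - y g with hD
  have hφD : ∀ g, φ (y g) = y g + D g := fun g => by simp [hD]
  have hhom : ∀ g, (Lam (D g) 1).IsHomogeneous d := fun g => hW K n Lam hLam d _ (hφ g)
  have hrel : ∀ g h, (y g + D g) * (y h + D h) - (y h + D h) * (y g + D g) =
      algebraMap K (Weyl K n) (om K g h) := by
    intro g h
    rw [← hφD, ← hφD, ← map_mul, ← map_mul, ← map_sub, hcy, AlgHom.commutes]
  obtain ⟨hcl, hBz⟩ := hS K n Lam hLam d D hd hd4 hhom hrel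
  have hcl' : ∀ g h, y g * D h - D h * y g + (D g * y h - y h * D g) = 0 :=
    fun g h => hP K n Lam hLam _ (hcl g h)
  obtain ⟨H, hHhom, hHy, hHd⟩ := hH K n Lam hLam d D hd hhom hcl'
  have hcomm : ∀ g h, D g * D h = D h * D g := by
    intro g h
    have : D g * D h - D h * D g = 0 := by
      apply hP K n Lam hLam
      rw [hC K n Lam hLam d d _ _ (hhom g) (hhom h)]
      apply Finset.sum_eq_zero
      intro r hr
      rw [hBz g h r (Finset.mem_filter.1 hr).2, mul_zero]
    exact sub_eq_zero.1 this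
  have hHD : ∀ g, H * D g = D g * H := by
    intro g
    have : H * D g - D g * H = 0 := by
      apply hP K n Lam hLam
      rw [hC K n Lam hLam (d + 1) d _ _ hHhom (hhom g)]
      apply Finset.sum_eq_zero
      intro r hr
      obtain ⟨hr1, hr2⟩ := Finset.mem_filter.1 hr
      have hrd : r ≤ d := by
        have := Finset.mem_range.1 hr1
        omega
      have he := hE K n r (d + 1) (Lam H 1) (Lam (D g) 1) hHhom
      have hz : ∑ m, X m * B r (pderiv m (Lam H 1)) (Lam (D g) 1) = 0 := by
        apply Finset.sum_eq_zero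
        intro m _
        obtain ⟨v, hv⟩ := hHd m
        rw [hv, (hB K n r).2.2.2.2.1, Finset.sum_eq_zero, mul_zero]
        intro k _
        rw [(hB K n r).2.2.1, hBz k g r hr2, mul_zero]
      rw [hz] at he
      have hne : (C (((d + 1 : ℕ) : K) - (r : K)) : P K n) ≠ 0 := by
        intro h0
        have h1 : ((d + 1 : ℕ) : K) - (r : K) = 0 := by
          have := C_injective (Ix n) K (h0.trans (map_zero _).symm)
          exact this
        have h2 : ((d + 1 : ℕ) : K) = (r : K) := sub_eq_zero.1 h1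
        have h3 : d + 1 = r := by exact_mod_cast h2
        omega
      rw [(mul_eq_zero.1 he).resolve_left hne, mul_zero]
    exact sub_eq_zero.1 this
  exact hX K n D H hcomm hcl' hHy hHD φ hφD

end Pool.Agent.H119R3.DX
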