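import Pool.Agent.H119R3.DX.GEN
import Pool.Agent.H119R3.DX.ID

/-!
# Commuting homogeneous parts: the case of arbitrary degree
-/

namespace Pool.Agent.H119R3.DX

open MvPolynomial

/-- separation of degrees for commuting parts -/
def S_SEPC : Prop := ∀ (K : Type) [Field K] [CharZero K] (n : ℕ)
  (Lam : Weyl K n →ₐ[K] Module.End K (P K n)), (∀ g, Lam (y g) = Lop g) →
  ∀ (d : ℕ) (D : Ix n → Weyl K n), 2 ≤ d → (∀ g h, D g * D h = D h * D g) →
  (∀ g, (Lam (D g) 1).IsHomogeneous d) →
  (∀ g h, (y g + D g) * (y h + D h) - (y h + D h) * (y g + D g) =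
    algebraMap K (Weyl K n) (om K g h)) →
  (∀ g h, Lam (y g * D h - D h * y g + (D g * y h - y h * D g)) 1 = 0) ∧
  ∀ g h r, r % 2 = 1 → B r (Lam (D g) 1) (Lam (D h) 1) = 0

/-- identity as linear part, commuting homogeneous parts -/
def S_IDC : Prop := ∀ (K : Type) [Field K] [CharZero K] (n d : ℕ), 2 ≤ d →
  ∀ φ : Weyl K n →ₐ[K] Weyl K n, (∀ g, φ (y g) - y g ∈ W K n d) →
  (∀ g h, (φ (y g) - y g) * (φ (y h) - y h) = (φ (y h) - y h) * (φ (y g) - y g)) →
  Function.Bijective φ

/-- general linear part, commuting homogeneous parts -/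
def S_GENC : Prop := ∀ (K : Type) [Field K] [CharZero K] (n d : ℕ), 2 ≤ d →
  ∀ φ : Weyl K n →ₐ[K] Weyl K n, ∀ (c : Ix n → K) (l D : Ix n → Weyl K n),
  (∀ g, φ (y g) = algebraMap K (Weyl K n) (c g) + l g + D g) → (∀ g, l g ∈ W K n 1) →
  (∀ g, D g ∈ W K n d) → (∀ g h, D g * D h = D h * D g) →
  (∀ g h, l g * l h - l h * l g = algebraMap K (Weyl K n) (om K g h)) → Function.Bijective φ

theorem t_SEPC (h1 : S_COMM) (h2 : S_BHOM) (hcy : S_CY) : S_SEPC := by
  intro K _ _ n Lam hLam d D hd hc hhom hrel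
  have hcl : ∀ g h, y g * D h - D h * y g + (D g * y h - y h * D g) = 0 := by
    intro g h
    have e1 := hrel g h
    rw [← hcy K n g h] at e1
    have e2 : (y g + D g) * (y h + D h) - (y h + D h) * (y g + D g) =
        (y g * y h - y h * y g) + (y g * D h - D h * y g + (D g * y h - y h * D g)) +
          (D g * D h - D h * D g) := by
      simp only [mul_add, add_mul]
      abel
    rw [e2, hc g h, sub_self, add_zero] at e1
    exact left_eq_add.mp e1.symm
  refine ⟨fun g h => by rw [hcl, map_zero]; rfl, ?_⟩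
  intro g h r hr
  rcases le_or_gt r d with hrd | hrd
  · have e1 := h1 K n Lam hLam d d _ _ (hhom g) (hhom h)
    rw [hc g h, sub_self, map_zero] at e1
    have e2 := congrArg (homogeneousComponent (d + d - 2 * r)) e1
    rw [map_sum] at e2
    rw [Finset.sum_eq_single r] at e2
    · rw [LinearMap.zero_apply, map_zero, homogeneousComponent_C_mul,
        homogeneousComponent_of_mem (((h2 K n r d d _ _ (hhom g) (hhom h)).1 hrd hrd)),
        if_pos rfl] at e2
      have e3 := mul_eq_zero.1 e2.symm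
      refine e3.resolve_left ?_
      intro h0
      have h3 := C_injective (Ix n) K (h0.trans (map_zero _).symm)
      have h4 : (2 : K) / (2 ^ r * (r.factorial : K)) ≠ 0 := by
        have : (r.factorial : K) ≠ 0 := by exact_mod_cast r.factorial_ne_zero
        exact div_ne_zero two_ne_zero (mul_ne_zero (pow_ne_zero _ two_ne_zero) this)
      exact h4 h3
    · intro b hb hbr
      obtain ⟨hb1, hb2⟩ := Finset.mem_filter.1 hb
      have hbd : b ≤ d := by
        have := Finset.mem_range.1 hb1
        omega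
      rw [homogeneousComponent_C_mul,
        homogeneousComponent_of_mem (((h2 K n b d d _ _ (hhom g) (hhom h)).1 hbd hbd)),
        if_neg (by omega), mul_zero]
    · intro hnot
      exfalso
      apply hnot
      rw [Finset.mem_filter, Finset.mem_range]
      omega
  · exact (h2 K n r d d _ _ (hhom g) (hhom h)).2 (Or.inl hrd)

theorem t_IDC (h0 : S_LREL) (h1 : S_LIFT) (hcy : S_CY) (hB : S_BADD) (hE : S_EULER) (hW : S_WH)
    (hC : S_COMM) (hS : S_SEPC) (hH : S_HAM) (hP : S_PBW) (hX : S_EXP) : S_IDC := by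
  intro K _ _ n d hd φ hφ hφc
  obtain ⟨Lam, hLam⟩ := exists_Lam h0 h1 K n
  set D : Ix n → Weyl K n := fun g => φ (y g) - y g with hD
  have hφD : ∀ g, φ (y g) = y g + D g := fun g => by simp [hD]
  have hhom : ∀ g, (Lam (D g) 1).IsHomogeneous d := fun g => hW K n Lam hLam d _ (hφ g)
  have hrel : ∀ g h, (y g + D g) * (y h + D h) - (y h + D h) * (y g + D g) =
      algebraMap K (Weyl K n) (om K g h) := by
    intro g h
    rw [← hφD, ← hφD, ← map_mul, ← map_mul, ← map_sub, hcy, AlgHom.commutes]
  obtain ⟨hcl, hBz⟩ := hS K n Lam hLam d D hd hφc hhom hrel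
  have hcl' : ∀ g h, y g * D h - D h * y g + (D g * y h - y h * D g) = 0 :=
    fun g h => hP K n Lam hLam _ (hcl g h)
  obtain ⟨H, hHhom, hHy, hHd⟩ := hH K n Lam hLam d D hd hhom hcl'
  have hcomm : ∀ g h, D g * D h = D h * D g := hφc
  have hHD : ∀ g, H * D g = D g * H := by
    intro g
    have : H * D g - D g * H = 0 := by
      apply hP K n Lam hLam
      rw [hC K n Lam hLam (d + 1) d _ _ hHhom (hhom g)]
      apply Finset.sum_eq_zero
      intro r hr
      obtain ⟨hr1, hr2⟩ := Finset.mem_filter.1 hr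
      have hrd : r ≤ d := by
        have := Finset.mem_range.1 hr1
        omega
      have he := hE K n r (d + 1) (Lam H 1) (Lam (D g) 1) hHhom
      have hz : ∑ m, X m * B r (pderiv m (Lam H 1)) (Lam (D g) 1) = 0 := by
        apply Finset.sum_eq_zero
        intro m _
        obtain ⟨v, hv⟩ := hHd m
        rw [hv, (hB K n r).2.2.2.2.1, Finset.sum_eq_zero, mul_zero]
        intro k _
        rw [(hB K n r).2.2.1, hBz k g r hr2, mul_zero]
      rw [hz] at he
      have hne : (C (((d + 1 : ℕ) : K) - (r : K)) : P K n) ≠ 0 := by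
        intro h0
        have h1 : ((d + 1 : ℕ) : K) - (r : K) = 0 := by
          have := C_injective (Ix n) K (h0.trans (map_zero _).symm)
          exact this
        have h2 : ((d + 1 : ℕ) : K) = (r : K) := sub_eq_zero.1 h1
        have h3 : d + 1 = r := by exact_mod_cast h2
        omega
      rw [(mul_eq_zero.1 he).resolve_left hne, mul_zero]
    exact sub_eq_zero.1 this
  exact hX K n D H hcomm hcl' hHy hHD φ hφD


theorem t_GENC (h1 : S_IDC) (h2 : S_LIFT) (h3 : S_IND) (h4 : S_CY) (h6 : S_LREL) : S_GENC := by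
  intro K _ _ n d hd φ c l D hφ hl hD hDc hlc
  obtain ⟨Lam, -⟩ := h2 K n (Module.End K (P K n)) Lop (h6 K n)
  have : Nontrivial (Weyl K n) := Lam.toRingHom.domain_nontrivial
  have hinj : Function.Injective (algebraMap K (Weyl K n)) := (algebraMap K (Weyl K n)).injective
  have hlM : ∀ g, ∃ v : Ix n → K, ∑ h, v h • (y h : Weyl K n) = l g := by
    intro g
    have hW : W K n 1 ≤ Submodule.span K (Set.range (fun h : Ix n => (y h : Weyl K n))) := by
      rw [W, Submodule.span_le]
      rintro _ ⟨v, rfl⟩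
      simp only [pow_one]
      exact Submodule.sum_mem _ fun g _ => Submodule.smul_mem _ _ (Submodule.subset_span ⟨g, rfl⟩)
    exact (Submodule.mem_span_range_iff_exists_fun K).mp (hW (hl g))
  choose M hM using hlM
  obtain ⟨MM, hMM⟩ : ∃ MM : Matrix (Ix n) (Ix n) K, MM = Matrix.of M := ⟨_, rfl⟩
  obtain ⟨Om, hOm⟩ : ∃ Om : Matrix (Ix n) (Ix n) K, Om = Matrix.of (om K) := ⟨_, rfl⟩
  have hOm2 : Om * Om = -1 := by rw [hOm]; exact GEN_om_sq K n
  -- entries of a product
  have hent : ∀ (A : Matrix (Ix n) (Ix n) K) (g h : Ix n),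
      (A * Om * A.transpose) g h = ∑ i, ∑ j, A g i * om K i j * A h j := by
    intro A g h
    rw [Matrix.mul_apply]
    simp only [Matrix.mul_apply, Matrix.transpose_apply, Finset.sum_mul, hOm, Matrix.of_apply]
    rw [Finset.sum_comm]
  have hMO : MM * Om * MM.transpose = Om := by
    ext g h
    apply hinj
    rw [hent, ← GEN_comm (y : Ix n → Weyl K n) (om K) (h4 K n), hMM]
    have e1 : ∑ i, (Matrix.of M : Matrix (Ix n) (Ix n) K) g i • (y i : Weyl K n) = l g := hM g
    have e2 : ∑ i, (Matrix.of M : Matrix (Ix n) (Ix n) K) h i • (y i : Weyl K n) = l h := hM h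
    rw [e1, e2, hlc g h, hOm]
    rfl
  obtain ⟨N, hN⟩ : ∃ N : Matrix (Ix n) (Ix n) K, N = Om * MM.transpose * (-Om) := ⟨_, rfl⟩
  have hMN : MM * N = 1 := by
    rw [hN, ← Matrix.mul_assoc, ← Matrix.mul_assoc, hMO, Matrix.mul_neg, hOm2, neg_neg]
  have hNM : N * MM = 1 := mul_eq_one_comm.mp hMN
  have hNO : N * Om * N.transpose = Om := by
    have e1 : MM.transpose * N.transpose = 1 := by
      rw [← Matrix.transpose_mul, hNM, Matrix.transpose_one]
    calc N * Om * N.transpose = N * (MM * Om * MM.transpose) * N.transpose := by rw [hMO]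
      _ = (N * MM) * Om * (MM.transpose * N.transpose) := by simp only [Matrix.mul_assoc]
      _ = Om := by rw [hNM, e1, Matrix.one_mul, Matrix.mul_one]
  -- the map β
  have hrel : ∀ g h, (∑ i, N g i • (y i : Weyl K n) - algebraMap K (Weyl K n) (∑ i, N g i * c i)) *
      (∑ i, N h i • (y i : Weyl K n) - algebraMap K (Weyl K n) (∑ i, N h i * c i)) -
      (∑ i, N h i • (y i : Weyl K n) - algebraMap K (Weyl K n) (∑ i, N h i * c i)) *
      (∑ i, N g i • (y i : Weyl K n) - algebraMap K (Weyl K n) (∑ i, N g i * c i)) =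
      algebraMap K (Weyl K n) (om K g h) := by
    intro g h
    rw [GEN_const, GEN_comm (y : Ix n → Weyl K n) (om K) (h4 K n), ← hent, hNO, hOm]
    rfl
  obtain ⟨β, hβ⟩ := h2 K n (Weyl K n) (fun g => ∑ i, N g i • (y i : Weyl K n) -
    algebraMap K (Weyl K n) (∑ i, N g i * c i)) hrel
  -- sums against a product of matrices
  have hprod : ∀ (A B : Matrix (Ix n) (Ix n) K) (z : Ix n → Weyl K n) (g : Ix n), A * B = 1 →
      ∑ i, A g i • ∑ j, B i j • z j = z g := by
    intro A B z g hAB
    have e1 : ∑ i, A g i • ∑ j, B i j • z j = ∑ j, (A * B) g j • z j := by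
      simp only [Finset.smul_sum, smul_smul, Matrix.mul_apply, Finset.sum_smul]
      rw [Finset.sum_comm]
    rw [e1, hAB]
    simp only [Matrix.one_apply, ite_smul, one_smul, zero_smul, Finset.sum_ite_eq,
      Finset.mem_univ, if_true]
  have hφβ0 : ∀ g, (φ.comp β) (y g) - y g = ∑ i, N g i • D i := by
    intro g
    rw [AlgHom.comp_apply, hβ g, map_sub, map_sum, AlgHom.commutes]
    have e1 : ∑ i, φ (N g i • (y i : Weyl K n)) =
        algebraMap K (Weyl K n) (∑ i, N g i * c i) + y g + ∑ i, N g i • D i := by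
      have e2 : ∀ i, φ (N g i • (y i : Weyl K n)) =
          algebraMap K (Weyl K n) (N g i * c i) + N g i • l i + N g i • D i := by
        intro i
        rw [map_smul, hφ i, smul_add, smul_add, Algebra.smul_def (N g i) (algebraMap K _ (c i)),
          ← map_mul]
      have e3 : ∑ i, N g i • l i = y g := by
        have e4 : ∑ i, N g i • l i = ∑ i, N g i • ∑ j, MM i j • (y j : Weyl K n) := by
          refine Finset.sum_congr rfl fun i _ => ?_
          rw [← hM i, hMM]
          rfl
        rw [e4, hprod N MM (y : Ix n → Weyl K n) g hNM]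
      rw [Finset.sum_congr rfl (fun i _ => e2 i), Finset.sum_add_distrib,
        Finset.sum_add_distrib, e3, map_sum]
    rw [e1]
    have e5 : algebraMap K (Weyl K n) (∑ i, N g i * c i) + y g + ∑ i, N g i • D i -
        algebraMap K (Weyl K n) (∑ i, N g i * c i) - y g = ∑ i, N g i • D i := by abel
    exact e5
  have hφβ : ∀ g, (φ.comp β) (y g) - y g ∈ W K n d := by
    intro g
    rw [hφβ0]
    exact Submodule.sum_mem _ fun i _ => Submodule.smul_mem _ _ (hD i)
  have hφβc : ∀ g h, ((φ.comp β) (y g) - y g) * ((φ.comp β) (y h) - y h) =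
      ((φ.comp β) (y h) - y h) * ((φ.comp β) (y g) - y g) := by
    intro g h
    rw [hφβ0, hφβ0, Finset.sum_mul_sum, Finset.sum_mul_sum, Finset.sum_comm]
    refine Finset.sum_congr rfl fun i _ => Finset.sum_congr rfl fun j _ => ?_
    rw [smul_mul_smul_comm, smul_mul_smul_comm, hDc, mul_comm (N g j)]
  have hbij : Function.Bijective (φ.comp β) := h1 K n d hd (φ.comp β) hφβ hφβc
  have hβs : Function.Surjective β := by
    have hgen : ∀ g, ∃ z, β z = (y g : Weyl K n) := by
      intro g
      refine ⟨algebraMap K (Weyl K n) (c g) + ∑ i, MM g i • (y i : Weyl K n), ?_⟩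
      rw [map_add, AlgHom.commutes, map_sum]
      have e1 : ∀ i, β (MM g i • (y i : Weyl K n)) =
          MM g i • ∑ j, N i j • ((y j : Weyl K n) - algebraMap K (Weyl K n) (c j)) := by
        intro i
        rw [map_smul, hβ i]
        congr 1
        simp only [smul_sub, Finset.sum_sub_distrib, map_sum]
        congr 1
        refine Finset.sum_congr rfl fun j _ => ?_
        rw [Algebra.smul_def, ← map_mul]
      rw [Finset.sum_congr rfl (fun i _ => e1 i),
        hprod MM N (fun j => (y j : Weyl K n) - algebraMap K (Weyl K n) (c j)) g hMN]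
      abel
    intro a
    have hmem := h3 K n (LinearMap.range β.toLinearMap) ⟨1, map_one β⟩ ?_ a
    · obtain ⟨z, hz⟩ := hmem
      exact ⟨z, hz⟩
    · rintro g _ ⟨w, rfl⟩
      obtain ⟨z, hz⟩ := hgen g
      exact ⟨z * w, by
        show β (z * w) = y g * β w
        rw [map_mul, hz]⟩
  constructor
  · intro a b hab
    obtain ⟨a', rfl⟩ := hβs a
    obtain ⟨b', rfl⟩ := hβs b
    rw [hbij.1 (show (φ.comp β) a' = (φ.comp β) b' from hab)]
  · intro b
    obtain ⟨a, ha⟩ := hbij.2 b
    exact ⟨β a, ha⟩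

end Pool.Agent.H119R3.DX
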