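import Pool.Agent.H119R3.DX.Defs

namespace Pool.Agent.H119R3.DX

open MvPolynomial

theorem COMM_trunc {K : Type} [Field K] {n : ℕ} (h2 : S_BSYM) (h3 : S_BZERO) (f g : P K n)
    (p q : ℕ) (hf : f.IsHomogeneous p) (hg : g.IsHomogeneous q) (r : ℕ) (hr : min p q < r) :
    B r f g = 0 := by
  rcases lt_or_ge q r with h | h
  · exact h3 K n r q f g hg h
  · have hp : p < r := by
      rcases min_lt_iff.mp hr with h' | h'
      · exact h'
      · omega
    rw [h2 K n r g f, h3 K n r p g f hf hp, mul_zero]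

theorem COMM_sum {K : Type} [Field K] [CharZero K] {n : ℕ} (h1 : S_STAR) (h2 : S_BSYM)
    (h3 : S_BZERO) (Lam : Weyl K n →ₐ[K] Module.End K (P K n)) (hLam : ∀ g, Lam (y g) = Lop g)
    (a : Weyl K n) (g : P K n) (p q m : ℕ) (ha : (Lam a 1).IsHomogeneous p)
    (hg : g.IsHomogeneous q) (hm : m = min p q) :
    Lam a g = ∑ r ∈ Finset.range (m + 1),
      C (1 / (2 ^ r * (r.factorial : K))) * B r (Lam a 1) g := by
  rw [h1 K n Lam hLam q g hg a]
  symm
  apply Finset.sum_subset
  · intro r hr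
    simp only [Finset.mem_range] at hr ⊢
    have := min_le_right p q
    omega
  · intro r _ hr
    simp only [Finset.mem_range, not_lt] at hr
    rw [COMM_trunc h2 h3 (Lam a 1) g p q ha hg r (by omega), mul_zero]

theorem t_COMM (h1 : S_STAR) (h2 : S_BSYM) (h3 : S_BZERO) : S_COMM := by
  intro K _ _ n Lam hLam p q a b ha hb
  have e1 : Lam (a * b - b * a) 1 = Lam a (Lam b 1) - Lam b (Lam a 1) := by
    rw [map_sub, map_mul, map_mul]
    rfl
  have e2 := COMM_sum h1 h2 h3 Lam hLam a (Lam b 1) p q (min p q) ha hb rfl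
  have e3 := COMM_sum h1 h2 h3 Lam hLam b (Lam a 1) q p (min p q) hb ha (min_comm p q)
  rw [e1, e2, e3, ← Finset.sum_sub_distrib, Finset.sum_filter]
  apply Finset.sum_congr rfl
  intro r _
  rw [h2 K n r (Lam a 1) (Lam b 1)]
  split_ifs with h
  · have h5 : (-1 : P K n) ^ r = -1 := Odd.neg_one_pow (Nat.odd_iff.mpr h)
    have h6 : (C (2 / (2 ^ r * (r.factorial : K))) : P K n) =
        C (1 / (2 ^ r * (r.factorial : K))) + C (1 / (2 ^ r * (r.factorial : K))) := by
      rw [← C_add]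
      congr 1
      ring
    rw [h5, h6]
    ring
  · have h5 : (-1 : P K n) ^ r = 1 := Even.neg_one_pow (Nat.even_iff.mpr (by omega))
    rw [h5]
    ring

end Pool.Agent.H119R3.DX
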