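import Pool.Agent.H119R3.DX.Defs

namespace Pool.Agent.H119R3.DX

open MvPolynomial

private theorem cy_rel {K : Type} [Field K] {n : ℕ} {a b : FreeAlgebra K (Ix n)}
    (h : Rel K n a b) : RingQuot.mkAlgHom K (Rel K n) a = RingQuot.mkAlgHom K (Rel K n) b :=
  RingQuot.mkAlgHom_rel K h

theorem t_CY : S_CY := by
  intro K _ n g h
  unfold y
  rw [← map_mul, ← map_mul]
  rcases g with i | i <;> rcases h with j | j
  · have h1 := cy_rel (K := K) (n := n)
      (a := FreeAlgebra.ι K (Sum.inl i : Ix n) * FreeAlgebra.ι K (Sum.inl j : Ix n))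
      (b := FreeAlgebra.ι K (Sum.inl j : Ix n) * FreeAlgebra.ι K (Sum.inl i : Ix n))
      ⟨i, j, Or.inl ⟨rfl, rfl⟩⟩
    rw [h1, sub_self]
    simp [om]
  · have h1 := cy_rel (K := K) (n := n)
      (a := FreeAlgebra.ι K (Sum.inr j : Ix n) * FreeAlgebra.ι K (Sum.inl i : Ix n))
      (b := FreeAlgebra.ι K (Sum.inl i : Ix n) * FreeAlgebra.ι K (Sum.inr j : Ix n) +
        (if j = i then (1 : FreeAlgebra K (Ix n)) else 0))
      ⟨j, i, Or.inr (Or.inr ⟨rfl, rfl⟩)⟩
    rw [h1, map_add]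
    by_cases hij : i = j
    · subst hij
      simp [om]
    · have hji : ¬ j = i := fun e => hij e.symm
      simp [om, hij, hji]
  · have h1 := cy_rel (K := K) (n := n)
      (a := FreeAlgebra.ι K (Sum.inr i : Ix n) * FreeAlgebra.ι K (Sum.inl j : Ix n))
      (b := FreeAlgebra.ι K (Sum.inl j : Ix n) * FreeAlgebra.ι K (Sum.inr i : Ix n) +
        (if i = j then (1 : FreeAlgebra K (Ix n)) else 0))
      ⟨i, j, Or.inr (Or.inr ⟨rfl, rfl⟩)⟩
    rw [h1, map_add]
    by_cases hij : i = j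
    · subst hij
      simp [om]
    · simp [om, hij]
  · have h1 := cy_rel (K := K) (n := n)
      (a := FreeAlgebra.ι K (Sum.inr i : Ix n) * FreeAlgebra.ι K (Sum.inr j : Ix n))
      (b := FreeAlgebra.ι K (Sum.inr j : Ix n) * FreeAlgebra.ι K (Sum.inr i : Ix n))
      ⟨i, j, Or.inr (Or.inl ⟨rfl, rfl⟩)⟩
    rw [h1, sub_self]
    simp [om]

end Pool.Agent.H119R3.DX
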