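import Pool.Agent.H119R3.DX.Defs

/-!
# Endomorphisms of degree at most two
-/

namespace Pool.Agent.H119R3.DX

open MvPolynomial

private theorem DEG2_sum_single (K : Type) [Field K] (n : ℕ) (h : Ix n) :
    ∑ g, (Pi.single h (1 : K) : Ix n → K) g • (y g : Weyl K n) = y h := by
  rw [Finset.sum_eq_single h]
  · rw [Pi.single_eq_same, one_smul]
  · intro b _ hb
    rw [Pi.single_eq_of_ne hb, zero_smul]
  · intro hh
    exact absurd (Finset.mem_univ h) hh

private theorem DEG2_W1 (K : Type) [Field K] (n : ℕ) (h : Ix n) :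
    (y h : Weyl K n) ∈ W K n 1 := by
  refine Submodule.subset_span ⟨Pi.single h (1 : K), ?_⟩
  show (∑ g, (Pi.single h (1 : K) : Ix n → K) g • (y g : Weyl K n)) ^ 1 = y h
  rw [DEG2_sum_single, pow_one]

private theorem DEG2_W2 (K : Type) [Field K] (n : ℕ) (h : Ix n) :
    (y h : Weyl K n) ^ 2 ∈ W K n 2 := by
  refine Submodule.subset_span ⟨Pi.single h (1 : K), ?_⟩
  show (∑ g, (Pi.single h (1 : K) : Ix n → K) g • (y g : Weyl K n)) ^ 2 = y h ^ 2
  rw [DEG2_sum_single]

private theorem DEG2_W2' (K : Type) [Field K] (n : ℕ) (h k : Ix n) :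
    ((y h : Weyl K n) + y k) ^ 2 ∈ W K n 2 := by
  refine Submodule.subset_span ⟨Pi.single h (1 : K) + Pi.single k (1 : K), ?_⟩
  show (∑ g, (Pi.single h (1 : K) + Pi.single k (1 : K) : Ix n → K) g • (y g : Weyl K n)) ^ 2 =
    (y h + y k) ^ 2
  simp only [Pi.add_apply, add_smul, Finset.sum_add_distrib]
  rw [DEG2_sum_single, DEG2_sum_single]

/-- endomorphisms of degree at most two are bijective -/
theorem t_DEG2 (h1 : S_GEN) (h2 : S_EVEN) (h3 : S_CY) : S_DEG2 := by
  intro K _ _ n φ hφ
  have key : ∀ a ∈ Submodule.span K ({1} ∪ Set.range (fun h : Ix n => (y h : Weyl K n)) ∪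
      Set.range (fun p : Ix n × Ix n => (y p.1 : Weyl K n) * y p.2)),
      a ∈ Submodule.span K {(1 : Weyl K n)} ⊔ W K n 1 ⊔ W K n 2 := by
    intro a ha
    refine (Submodule.span_le.2 ?_) ha
    rintro b ((hb | ⟨h, rfl⟩) | ⟨⟨h, k⟩, rfl⟩)
    · exact Submodule.mem_sup_left (Submodule.mem_sup_left (Submodule.subset_span hb))
    · exact Submodule.mem_sup_left (Submodule.mem_sup_right (DEG2_W1 K n h))
    · have hc := h3 K n h k
      have e : (y h : Weyl K n) * y k = ((1 / 2 : K) * om K h k) • (1 : Weyl K n) +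
          (1 / 2 : K) • ((y h + y k) ^ 2 - y h ^ 2 - y k ^ 2) := by
        have e1 : (y k : Weyl K n) * y h = y h * y k - algebraMap K (Weyl K n) (om K h k) := by
          rw [← hc]
          abel
        have e2 : ((y h : Weyl K n) + y k) ^ 2 - y h ^ 2 - y k ^ 2 =
            (2 : K) • (y h * y k) - (om K h k) • (1 : Weyl K n) := by
          rw [← Algebra.algebraMap_eq_smul_one]
          have e3 : ((y h : Weyl K n) + y k) ^ 2 - y h ^ 2 - y k ^ 2 = y h * y k + y k * y h := by
            rw [pow_two, pow_two, pow_two, add_mul, mul_add, mul_add]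
            abel
          rw [e3, e1, two_smul]
          abel
        rw [e2, smul_sub, smul_smul, smul_smul]
        have h22 : (1 / 2 : K) * 2 = 1 := by
          rw [one_div, inv_mul_cancel₀ two_ne_zero]
        rw [h22, one_smul]
        abel
      show (y h : Weyl K n) * y k ∈ _
      rw [e]
      refine Submodule.add_mem _ ?_ ?_
      · exact Submodule.mem_sup_left (Submodule.mem_sup_left
          (Submodule.smul_mem _ _ (Submodule.mem_span_singleton_self _)))
      · exact Submodule.mem_sup_right (Submodule.smul_mem _ _ (Submodule.sub_mem _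
          (Submodule.sub_mem _ (DEG2_W2' K n h k) (DEG2_W2 K n h)) (DEG2_W2 K n k)))
  have hex : ∀ g, ∃ (c : K) (l D : Weyl K n), φ (y g) = algebraMap K (Weyl K n) c + l + D ∧
      l ∈ W K n 1 ∧ D ∈ W K n 2 := by
    intro g
    obtain ⟨u, hu, D, hD, e⟩ := Submodule.mem_sup.1 (key _ (hφ g))
    obtain ⟨v, hv, l, hl, e'⟩ := Submodule.mem_sup.1 hu
    obtain ⟨c, hc⟩ := Submodule.mem_span_singleton.1 hv
    refine ⟨c, l, D, ?_, hl, hD⟩
    rw [← e, ← e', ← hc, Algebra.algebraMap_eq_smul_one]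
  choose c l D hφ' hl hD using hex
  have hlin := h2 K n 2 le_rfl rfl φ c l D hφ' hl hD
  exact h1 K n 2 le_rfl (by decide) φ c l D hφ' hl hD hlin

end Pool.Agent.H119R3.DX
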