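import Mathlib

/-!
# Endomorphisms of the Weyl algebra: definitions and statements
-/

namespace Pool.Agent.H119R3.DX

open MvPolynomial

/-- Index set of the generators: `Sum.inl i` stands for `x i`, `Sum.inr i` for `d i`. -/
abbrev Ix (n : ℕ) : Type := Fin n ⊕ Fin n

/-- The defining relations of the `n`-th Weyl algebra: commuting `x`'s, commuting `d`'s and
`d i * x j - x j * d i = δ`. -/
def Rel (K : Type) [Field K] (n : ℕ) (a b : FreeAlgebra K (Ix n)) : Prop :=
  ∃ i j : Fin n,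
    (a = FreeAlgebra.ι K (Sum.inl i : Ix n) * FreeAlgebra.ι K (Sum.inl j : Ix n) ∧
      b = FreeAlgebra.ι K (Sum.inl j : Ix n) * FreeAlgebra.ι K (Sum.inl i : Ix n)) ∨
    (a = FreeAlgebra.ι K (Sum.inr i : Ix n) * FreeAlgebra.ι K (Sum.inr j : Ix n) ∧
      b = FreeAlgebra.ι K (Sum.inr j : Ix n) * FreeAlgebra.ι K (Sum.inr i : Ix n)) ∨
    (a = FreeAlgebra.ι K (Sum.inr i : Ix n) * FreeAlgebra.ι K (Sum.inl j : Ix n) ∧
      b = FreeAlgebra.ι K (Sum.inl j : Ix n) * FreeAlgebra.ι K (Sum.inr i : Ix n) +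
        (if i = j then (1 : FreeAlgebra K (Ix n)) else 0))

/-- The `n`-th Weyl algebra over `K`. -/
abbrev Weyl (K : Type) [Field K] (n : ℕ) : Type := RingQuot (Rel K n)

variable {K : Type} [Field K] {n : ℕ}

/-- The generators. -/
noncomputable def y (g : Ix n) : Weyl K n := RingQuot.mkAlgHom K (Rel K n) (FreeAlgebra.ι K g)

/-- `[y g, y h] = om g h`. -/
def om (K : Type) [Field K] {n : ℕ} : Ix n → Ix n → K
  | Sum.inr i, Sum.inl j => if i = j then 1 else 0
  | Sum.inl i, Sum.inr j => if i = j then -1 else 0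
  | _, _ => 0

/-- `W d`: the symmetric homogeneous elements of degree `d` (span of the `d`-th powers of the
linear combinations of the generators). -/
noncomputable def W (K : Type) [Field K] (n d : ℕ) : Submodule K (Weyl K n) :=
  Submodule.span K (Set.range (fun v : Ix n → K => (∑ g, v g • (y g : Weyl K n)) ^ d))

/-- polynomials (symbols) -/
abbrev P (K : Type) [Field K] (n : ℕ) : Type := MvPolynomial (Ix n) K

/-- the bidifferential operators of the Moyal product -/
noncomputable def B : ℕ → P K n → P K n → P K n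
  | 0, f, g => f * g
  | r + 1, f, g => ∑ a, ∑ b, C (om K a b) * B r (pderiv a f) (pderiv b g)

/-- Moyal operator of a generator: `X g + 1/2 ∑ h, om g h ∂ h`. -/
noncomputable def Lop (g : Ix n) : P K n →ₗ[K] P K n where
  toFun f := X g * f + C (1 / 2) * ∑ h, C (om K g h) * pderiv h f
  map_add' f f' := by
    simp only [map_add, mul_add, Finset.sum_add_distrib]; ring
  map_smul' c f := by
    simp only [RingHom.id_apply, smul_eq_C_mul, pderiv_C_mul, mul_add, Finset.mul_sum]
    congr 1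
    · ring
    · exact Finset.sum_congr rfl fun _ _ => by ring

/-! ### Statements -/

/-- commutators of the generators -/
def S_CY : Prop := ∀ (K : Type) [Field K] (n : ℕ) (g h : Ix n),
  (y g : Weyl K n) * y h - y h * y g = algebraMap K (Weyl K n) (om K g h)

/-- universal property -/
def S_LIFT : Prop := ∀ (K : Type) [Field K] (n : ℕ) (R : Type) [Ring R] [Algebra K R]
  (u : Ix n → R), (∀ g h, u g * u h - u h * u g = algebraMap K R (om K g h)) →
  ∃ F : Weyl K n →ₐ[K] R, ∀ g, F (y g) = u g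

/-- the generators generate: induction principle with left multiplication by generators -/
def S_IND : Prop := ∀ (K : Type) [Field K] (n : ℕ) (M : Submodule K (Weyl K n)),
  (1 : Weyl K n) ∈ M → (∀ g, ∀ a ∈ M, y g * a ∈ M) → ∀ a, a ∈ M

/-- bilinearity -/
def S_BADD : Prop := ∀ (K : Type) [Field K] (n r : ℕ),
  (∀ f f' g : P K n, B r (f + f') g = B r f g + B r f' g) ∧
  (∀ f g g' : P K n, B r f (g + g') = B r f g + B r f g') ∧
  (∀ (c : K) (f g : P K n), B r (C c * f) g = C c * B r f g) ∧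
  (∀ (c : K) (f g : P K n), B r f (C c * g) = C c * B r f g) ∧
  (∀ (f : Ix n → P K n) (g : P K n), B r (∑ m, f m) g = ∑ m, B r (f m) g) ∧
  (∀ (f : P K n) (g : Ix n → P K n), B r f (∑ m, g m) = ∑ m, B r f (g m))

/-- antisymmetry -/
def S_BSYM : Prop := ∀ (K : Type) [Field K] (n r : ℕ) (f g : P K n),
  B r g f = (-1) ^ r * B r f g

/-- Leibniz rule -/
def S_BDER : Prop := ∀ (K : Type) [Field K] (n r : ℕ) (m : Ix n) (f g : P K n),
  pderiv m (B r f g) = B r (pderiv m f) g + B r f (pderiv m g)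

/-- multiplication by a variable -/
def S_BX : Prop := ∀ (K : Type) [Field K] (n r : ℕ) (i : Ix n) (f g : P K n),
  B (r + 1) (X i * f) g = X i * B (r + 1) f g +
    C ((r : K) + 1) * ∑ b, C (om K i b) * B r f (pderiv b g)

/-- degrees -/
def S_BHOM : Prop := ∀ (K : Type) [Field K] (n r p q : ℕ) (f g : P K n), f.IsHomogeneous p →
  g.IsHomogeneous q → (r ≤ p → r ≤ q → (B r f g).IsHomogeneous (p + q - 2 * r)) ∧
    (p < r ∨ q < r → B r f g = 0)

/-- vanishing for large order, one argument arbitrary -/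
def S_BZERO : Prop := ∀ (K : Type) [Field K] (n r q : ℕ) (f g : P K n), g.IsHomogeneous q →
  q < r → B r f g = 0

/-- Euler's identity -/
def S_EULER : Prop := ∀ (K : Type) [Field K] (n r N : ℕ) (f g : P K n), f.IsHomogeneous N →
  C ((N : K) - (r : K)) * B r f g = ∑ m, X m * B r (pderiv m f) g

/-- the operators of the generators satisfy the relations -/
def S_LREL : Prop := ∀ (K : Type) [Field K] [CharZero K] (n : ℕ) (g h : Ix n),
  (Lop g : P K n →ₗ[K] P K n) * Lop h - Lop h * Lop g =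
    algebraMap K (Module.End K (P K n)) (om K g h)

/-- The symbol map is injective: `Lam a 1 = 0` implies `a = 0`. -/
def S_PBW : Prop := ∀ (K : Type) [Field K] [CharZero K] (n : ℕ)
  (Lam : Weyl K n →ₐ[K] Module.End K (P K n)), (∀ g, Lam (y g) = Lop g) →
  ∀ a, Lam a 1 = 0 → a = 0

/-- Moyal product: the operator of `a` applied to a homogeneous polynomial -/
def S_STAR : Prop := ∀ (K : Type) [Field K] [CharZero K] (n : ℕ)
  (Lam : Weyl K n →ₐ[K] Module.End K (P K n)), (∀ g, Lam (y g) = Lop g) →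
  ∀ (q : ℕ) (g : P K n), g.IsHomogeneous q → ∀ a,
  Lam a g = ∑ r ∈ Finset.range (q + 1), C (1 / (2 ^ r * (r.factorial : K))) * B r (Lam a 1) g

/-- symbols of the elements of `W d` are homogeneous of degree `d` -/
def S_WH : Prop := ∀ (K : Type) [Field K] [CharZero K] (n : ℕ)
  (Lam : Weyl K n →ₐ[K] Module.End K (P K n)), (∀ g, Lam (y g) = Lop g) →
  ∀ d, ∀ a ∈ W K n d, (Lam a 1).IsHomogeneous d

/-- commutators, on symbols -/
def S_COMM : Prop := ∀ (K : Type) [Field K] [CharZero K] (n : ℕ)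
  (Lam : Weyl K n →ₐ[K] Module.End K (P K n)), (∀ g, Lam (y g) = Lop g) →
  ∀ (p q : ℕ) (a b : Weyl K n), (Lam a 1).IsHomogeneous p → (Lam b 1).IsHomogeneous q →
  Lam (a * b - b * a) 1 = ∑ r ∈ (Finset.range (min p q + 1)).filter (fun r => r % 2 = 1),
    C (2 / (2 ^ r * (r.factorial : K))) * B r (Lam a 1) (Lam b 1)

/-- If `c i` are homogeneous of degree `d`, `d` is not `1` mod `4`, and the elements `y i + C i`
satisfy the relations of the generators, then the relations separate. -/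
def S_SEP : Prop := ∀ (K : Type) [Field K] [CharZero K] (n : ℕ)
  (Lam : Weyl K n →ₐ[K] Module.End K (P K n)), (∀ g, Lam (y g) = Lop g) →
  ∀ (d : ℕ) (D : Ix n → Weyl K n), 2 ≤ d → d % 4 ≠ 1 → (∀ g, (Lam (D g) 1).IsHomogeneous d) →
  (∀ g h, (y g + D g) * (y h + D h) - (y h + D h) * (y g + D g) =
    algebraMap K (Weyl K n) (om K g h)) →
  (∀ g h, Lam (y g * D h - D h * y g + (D g * y h - y h * D g)) 1 = 0) ∧
  ∀ g h r, r % 2 = 1 → B r (Lam (D g) 1) (Lam (D h) 1) = 0

/-- The Hamiltonian. -/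
def S_HAM : Prop := ∀ (K : Type) [Field K] [CharZero K] (n : ℕ)
  (Lam : Weyl K n →ₐ[K] Module.End K (P K n)), (∀ g, Lam (y g) = Lop g) →
  ∀ (d : ℕ) (D : Ix n → Weyl K n), 2 ≤ d → (∀ g, (Lam (D g) 1).IsHomogeneous d) →
  (∀ g h, y g * D h - D h * y g + (D g * y h - y h * D g) = 0) →
  ∃ H : Weyl K n, (Lam H 1).IsHomogeneous (d + 1) ∧ (∀ g, H * y g - y g * H = D g) ∧
    ∀ m, ∃ v : Ix n → K, pderiv m (Lam H 1) = ∑ g, C (v g) * Lam (D g) 1

/-- automorphisms from commuting families -/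
def S_EXP : Prop := ∀ (K : Type) [Field K] [CharZero K] (n : ℕ) (D : Ix n → Weyl K n)
  (H : Weyl K n), (∀ g h, D g * D h = D h * D g) →
  (∀ g h, y g * D h - D h * y g + (D g * y h - y h * D g) = 0) →
  (∀ g, H * y g - y g * H = D g) → (∀ g, H * D g = D g * H) →
  ∀ φ : Weyl K n →ₐ[K] Weyl K n, (∀ g, φ (y g) = y g + D g) → Function.Bijective φ

/-- identity as linear part -/
def S_ID : Prop := ∀ (K : Type) [Field K] [CharZero K] (n d : ℕ), 2 ≤ d → d % 4 ≠ 1 →
  ∀ φ : Weyl K n →ₐ[K] Weyl K n, (∀ g, φ (y g) - y g ∈ W K n d) → Function.Bijective φ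

/-- general linear part -/
def S_GEN : Prop := ∀ (K : Type) [Field K] [CharZero K] (n d : ℕ), 2 ≤ d → d % 4 ≠ 1 →
  ∀ φ : Weyl K n →ₐ[K] Weyl K n, ∀ (c : Ix n → K) (l D : Ix n → Weyl K n),
  (∀ g, φ (y g) = algebraMap K (Weyl K n) (c g) + l g + D g) → (∀ g, l g ∈ W K n 1) →
  (∀ g, D g ∈ W K n d) →
  (∀ g h, l g * l h - l h * l g = algebraMap K (Weyl K n) (om K g h)) → Function.Bijective φ

/-- for even `d` the linear part is automatically symplectic -/
def S_EVEN : Prop := ∀ (K : Type) [Field K] [CharZero K] (n d : ℕ), 2 ≤ d → d % 2 = 0 →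
  ∀ φ : Weyl K n →ₐ[K] Weyl K n, ∀ (c : Ix n → K) (l D : Ix n → Weyl K n),
  (∀ g, φ (y g) = algebraMap K (Weyl K n) (c g) + l g + D g) → (∀ g, l g ∈ W K n 1) →
  (∀ g, D g ∈ W K n d) →
  ∀ g h, l g * l h - l h * l g = algebraMap K (Weyl K n) (om K g h)

/-- endomorphisms of degree at most two -/
def S_DEG2 : Prop := ∀ (K : Type) [Field K] [CharZero K] (n : ℕ)
  (φ : Weyl K n →ₐ[K] Weyl K n),
  (∀ g, φ (y g) ∈ Submodule.span K ({1} ∪ Set.range (fun h : Ix n => (y h : Weyl K n)) ∪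
    Set.range (fun p : Ix n × Ix n => (y p.1 : Weyl K n) * y p.2))) → Function.Bijective φ

end Pool.Agent.H119R3.DX
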