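import Pool.Agent.H119R3.DX.Defs

/-! Task EULER: Euler's identity for the bidifferential operators. -/

namespace Pool.Agent.H119R3.DX

open MvPolynomial

theorem EULER_zero_left {K : Type} [Field K] {n : ℕ} (r : ℕ) (g : P K n) :
    B r (0 : P K n) g = 0 := by
  induction r generalizing g with
  | zero => simp [B]
  | succ r ih => simp [B, ih]

theorem EULER_comm {K : Type} [Field K] {n : ℕ} (a m : Ix n) (f : P K n) :
    pderiv a (pderiv m f) = pderiv m (pderiv a f) := by
  induction f using MvPolynomial.induction_on with
  | C c => simp
  | add p q hp hq => simp [hp, hq]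
  | mul_X p i hp =>
    simp only [Derivation.leibniz, smul_eq_mul, map_add, pderiv_X]
    rw [hp]
    simp only [Pi.single_apply]
    split_ifs <;> simp <;> ring

theorem t_EULER : S_EULER := by
  intro K _ n r
  induction r with
  | zero =>
    intro N f g hf
    simp only [B]
    have h := hf.sum_X_mul_pderiv
    have h2 : ∑ m, X m * (pderiv m f * g) = (∑ m, X m * pderiv m f) * g := by
      rw [Finset.sum_mul]
      exact Finset.sum_congr rfl fun m _ => by ring
    rw [h2, h]
    simp
    ring
  | succ r ih =>
    intro N f g hf
    rcases Nat.eq_zero_or_pos N with rfl | hN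
    · have hc : ∀ m, pderiv m f = 0 := by
        intro m
        obtain ⟨c, rfl⟩ : ∃ c, f = C c := by
          refine ⟨coeff 0 f, ?_⟩
          exact totalDegree_eq_zero_iff_eq_C.1 (Nat.le_zero.1 hf.totalDegree_le)
        exact pderiv_C
      simp only [B, hc, EULER_zero_left, map_zero, mul_zero, Finset.sum_const_zero]
    · have hcast : ((N - 1 : ℕ) : K) - (r : K) = (N : K) - ((r + 1 : ℕ) : K) := by
        rw [Nat.cast_sub hN]
        push_cast
        ring
      have key : ∀ a b, C ((N : K) - ((r + 1 : ℕ) : K)) * B r (pderiv a f) (pderiv b g) =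
          ∑ m, X m * B r (pderiv m (pderiv a f)) (pderiv b g) := by
        intro a b
        rw [← hcast]
        exact ih (N - 1) (pderiv a f) (pderiv b g) hf.pderiv
      simp only [B]
      rw [Finset.mul_sum]
      have h1 : ∀ a, C ((N : K) - ((r + 1 : ℕ) : K)) *
          (∑ b, C (om K a b) * B r (pderiv a f) (pderiv b g)) =
          ∑ b, ∑ m, X m * (C (om K a b) * B r (pderiv a (pderiv m f)) (pderiv b g)) := by
        intro a
        rw [Finset.mul_sum]
        refine Finset.sum_congr rfl fun b _ => ?_
        rw [mul_left_comm, key a b, Finset.mul_sum]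
        refine Finset.sum_congr rfl fun m _ => ?_
        rw [EULER_comm a m f]
        ring
      simp only [h1]
      simp only [Finset.mul_sum]
      rw [Finset.sum_congr rfl fun a _ => Finset.sum_comm]
      exact Finset.sum_comm

end Pool.Agent.H119R3.DX
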