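import Pool.Agent.H119R3.DX.Defs

/-! Task EVEN: for even `d` the linear part is symplectic. -/

namespace Pool.Agent.H119R3.DX

open MvPolynomial

private theorem EVEN_comm0 (h1 : S_COMM) (h2 : S_BHOM) {K : Type} [Field K] [CharZero K] {n : ℕ}
    (Lam : Weyl K n →ₐ[K] Module.End K (P K n)) (hLam : ∀ g, Lam (y g) = Lop g)
    {p q : ℕ} {a b : Weyl K n} (ha : (Lam a 1).IsHomogeneous p) (hb : (Lam b 1).IsHomogeneous q)
    (hr : ∀ r, r % 2 = 1 → r ≤ p → r ≤ q → p + q - 2 * r ≠ 0) :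
    homogeneousComponent 0 (Lam (a * b - b * a) 1) = 0 := by
  rw [h1 K n Lam hLam p q a b ha hb, map_sum]
  refine Finset.sum_eq_zero fun r hr' => ?_
  rw [Finset.mem_filter, Finset.mem_range] at hr'
  have hp : r ≤ p := by have := min_le_left p q; omega
  have hq : r ≤ q := by have := min_le_right p q; omega
  have hB := (h2 K n r p q _ _ ha hb).1 hp hq
  have hC := (isHomogeneous_C (Ix n) (2 / (2 ^ r * (r.factorial : K)))).mul hB
  rw [zero_add] at hC
  rw [homogeneousComponent_of_mem ((mem_homogeneousSubmodule _ _).2 hC),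
    if_neg (fun h => hr r hr'.2 hp hq h.symm)]

private theorem EVEN_comm1 (h1 : S_COMM) (h2 : S_BHOM) {K : Type} [Field K] [CharZero K] {n : ℕ}
    (Lam : Weyl K n →ₐ[K] Module.End K (P K n)) (hLam : ∀ g, Lam (y g) = Lop g)
    {a b : Weyl K n} (ha : (Lam a 1).IsHomogeneous 1) (hb : (Lam b 1).IsHomogeneous 1) :
    homogeneousComponent 0 (Lam (a * b - b * a) 1) = Lam (a * b - b * a) 1 := by
  have hh : (Lam (a * b - b * a) 1).IsHomogeneous 0 := by
    rw [h1 K n Lam hLam 1 1 a b ha hb]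
    refine IsHomogeneous.sum _ _ _ fun r hr' => ?_
    rw [Finset.mem_filter, Finset.mem_range] at hr'
    have hr1 : r = 1 := by omega
    subst hr1
    have hB := (h2 K n 1 1 1 _ _ ha hb).1 le_rfl le_rfl
    exact (isHomogeneous_C (Ix n) _).mul hB
  rw [homogeneousComponent_of_mem ((mem_homogeneousSubmodule _ _).2 hh), if_pos rfl]

private theorem EVEN_expand {R : Type} [Ring R] (A A' l l' D D' : R)
    (hA : ∀ x, A * x = x * A) (hA' : ∀ x, A' * x = x * A') :
    (A + l + D) * (A' + l' + D') - (A' + l' + D') * (A + l + D) =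
      (l * l' - l' * l) + (l * D' - D' * l) + (D * l' - l' * D) + (D * D' - D' * D) := by
  simp only [add_mul, mul_add]
  rw [hA A', hA l', hA D', hA' l, hA' D]
  abel

theorem t_EVEN (h0 : S_LREL) (h1 : S_COMM) (h2 : S_BHOM) (h3 : S_PBW) (h4 : S_WH) (h5 : S_CY)
    (h6 : S_LIFT) : S_EVEN := by
  intro K _ _ n d hd hdev φ c l D hφ hl hD g h
  obtain ⟨Lam, hLam⟩ := h6 K n (Module.End K (P K n)) (fun g => Lop g) (h0 K n)
  have hlg : ∀ g, (Lam (l g) 1).IsHomogeneous 1 := fun g => h4 K n Lam hLam 1 _ (hl g)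
  have hDg : ∀ g, (Lam (D g) 1).IsHomogeneous d := fun g => h4 K n Lam hLam d _ (hD g)
  have hcomm : φ (y g) * φ (y h) - φ (y h) * φ (y g) = algebraMap K (Weyl K n) (om K g h) := by
    rw [← map_mul, ← map_mul, ← map_sub, h5 K n g h, AlgHom.commutes]
  rw [hφ g, hφ h, EVEN_expand _ _ _ _ _ _ (fun x => Algebra.commutes _ x)
    (fun x => Algebra.commutes _ x)] at hcomm
  have happ := congrArg (fun z => homogeneousComponent 0 (Lam z (1 : P K n))) hcomm
  simp only [map_add, LinearMap.add_apply] at happ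
  rw [EVEN_comm1 h1 h2 Lam hLam (hlg g) (hlg h),
    EVEN_comm0 h1 h2 Lam hLam (hlg g) (hDg h) (by intro r _ h1 h2; omega),
    EVEN_comm0 h1 h2 Lam hLam (hDg g) (hlg h) (by intro r _ h1 h2; omega),
    EVEN_comm0 h1 h2 Lam hLam (hDg g) (hDg h) (by intro r hr h1 h2; omega),
    add_zero, add_zero, add_zero] at happ
  have hc : Lam (algebraMap K (Weyl K n) (om K g h)) (1 : P K n) = C (om K g h) := by
    rw [AlgHom.commutes, Module.algebraMap_end_apply, smul_eq_C_mul, mul_one]
  have hc2 : homogeneousComponent 0 (Lam (algebraMap K (Weyl K n) (om K g h)) (1 : P K n)) =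
      Lam (algebraMap K (Weyl K n) (om K g h)) (1 : P K n) := by
    rw [hc, homogeneousComponent_of_mem ((mem_homogeneousSubmodule _ _).2 (isHomogeneous_C _ _)),
      if_pos rfl]
  rw [hc2] at happ
  have hz : Lam ((l g * l h - l h * l g) - algebraMap K (Weyl K n) (om K g h)) 1 = 0 := by
    rw [map_sub, LinearMap.sub_apply, happ, sub_self]
  exact sub_eq_zero.1 (h3 K n Lam hLam _ hz)

end Pool.Agent.H119R3.DX
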