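import Pool.Agent.H119R3.DX.Defs

set_option autoImplicit false

namespace Pool.Agent.H119R3.DX

open MvPolynomial

section exp_section

variable {K : Type} [Field K] {I : Type} {A : Type} [Ring A] [Algebra K A]

theorem exp_ext {Y : I → A}
    (hind : ∀ (M : Submodule K A), (1 : A) ∈ M → (∀ g, ∀ a ∈ M, Y g * a ∈ M) → ∀ a, a ∈ M)
    {R : Type} [Ring R] [Algebra K R]
    (f g : A →ₐ[K] R) (h : ∀ i, f (Y i) = g (Y i)) (a : A) : f a = g a := by
  have h0 := hind (LinearMap.eqLocus f.toLinearMap g.toLinearMap) ?_ ?_ a
  · exact h0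
  · rw [LinearMap.mem_eqLocus]
    simp
  · intro i b hb
    rw [LinearMap.mem_eqLocus] at hb ⊢
    simp only [AlgHom.toLinearMap_apply, map_mul] at hb ⊢
    rw [hb, h i]

/-- evaluation at a central element -/
noncomputable def exp_ev (z : K) : Polynomial A →ₐ[K] A :=
  Polynomial.eval₂AlgHom (AlgHom.id K A) (algebraMap K A z)
    (fun a => (Algebra.commutes z a).symm)

theorem exp_ev_C (z : K) (a : A) : exp_ev z (Polynomial.C a) = a := by
  show Polynomial.eval₂ _ _ (Polynomial.C a) = a
  rw [Polynomial.eval₂_C]
  rfl

theorem exp_ev_X (z : K) :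
    exp_ev z (Polynomial.X : Polynomial A) = algebraMap K A z := by
  show Polynomial.eval₂ _ _ (Polynomial.X : Polynomial A) = _
  rw [Polynomial.eval₂_X]

theorem exp_main [CharZero K] (Y D : I → A) (H : A) (om' : I → I → K)
    (hY : ∀ g h, Y g * Y h - Y h * Y g = algebraMap K A (om' g h))
    (hlift : ∀ (R : Type) [Ring R] [Algebra K R] (u : I → R),
      (∀ g h, u g * u h - u h * u g = algebraMap K R (om' g h)) →
      ∃ F : A →ₐ[K] R, ∀ g, F (Y g) = u g)
    (hind : ∀ (M : Submodule K A), (1 : A) ∈ M → (∀ g, ∀ a ∈ M, Y g * a ∈ M) → ∀ a, a ∈ M)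
    (hDD : ∀ g h, D g * D h = D h * D g)
    (hcl : ∀ g h, Y g * D h - D h * Y g + (D g * Y h - Y h * D g) = 0)
    (hH : ∀ g, H * Y g - Y g * H = D g) (hHD : ∀ g, H * D g = D g * H)
    (φ : A →ₐ[K] A) (hφ : ∀ g, φ (Y g) = Y g + D g) : Function.Bijective φ := by
  -- the deformation
  obtain ⟨Θ, hΘ⟩ := hlift (Polynomial A)
    (fun g => Polynomial.C (Y g) + Polynomial.X * Polynomial.C (D g)) (by
      intro g h
      have e1 : (Polynomial.X : Polynomial A) * Polynomial.C (D g) =
          Polynomial.C (D g) * Polynomial.X := Polynomial.X_mul_C _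
      have e2 : (Polynomial.X : Polynomial A) * Polynomial.C (D h) =
          Polynomial.C (D h) * Polynomial.X := Polynomial.X_mul_C _
      have e3 : ∀ p q : Polynomial A, p * (q * Polynomial.X) =
          p * q * Polynomial.X := fun p q => (mul_assoc _ _ _).symm
      have e4 : ∀ (p : Polynomial A) (a : A),
          p * Polynomial.X * Polynomial.C a = p * Polynomial.C a * Polynomial.X := by
        intro p a
        rw [mul_assoc, Polynomial.X_mul_C, mul_assoc]
      rw [e1, e2]
      simp only [mul_add, add_mul, e3, e4, ← Polynomial.C_mul]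
      rw [Polynomial.algebraMap_apply, ← hY g h, hDD h g]
      have e5 : Y g * D h + D g * Y h = Y h * D g + D h * Y g := by
        have := hcl g h
        have e6 : Y g * D h + D g * Y h - (Y h * D g + D h * Y g) = 0 := by
          rw [← this]; abel
        exact sub_eq_zero.1 e6
      have e7 : Polynomial.C (Y g * D h) * Polynomial.X + Polynomial.C (D g * Y h) * Polynomial.X
          = Polynomial.C (Y h * D g) * Polynomial.X + Polynomial.C (D h * Y g) * Polynomial.X := by
        rw [← add_mul, ← add_mul, ← Polynomial.C_add, ← Polynomial.C_add, e5]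
      rw [Polynomial.C_sub]
      have e8 : ∀ a b c d e f g' : Polynomial A, b + c = e + f →
          a + c + (b + d) - (g' + f + (e + d)) = a - g' := by
        intro a b c d e f g' hh
        have : a + c + (b + d) - (g' + f + (e + d)) = a - g' + ((b + c) - (e + f)) := by abel
        rw [this, hh, sub_self, add_zero]
      exact e8 _ _ _ _ _ _ _ e7)
  -- derivative
  have hder : ∀ a, Polynomial.derivative (Θ a) =
      Polynomial.C H * Θ a - Θ a * Polynomial.C H := by
    intro a
    refine hind
      { carrier := {a | Polynomial.derivative (Θ a) =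
          Polynomial.C H * Θ a - Θ a * Polynomial.C H}
        zero_mem' := by simp
        add_mem' := by
          intro a b ha hb
          simp only [Set.mem_ofPred_eq] at ha hb ⊢
          rw [map_add, Polynomial.derivative_add, ha, hb, mul_add, add_mul]
          abel
        smul_mem' := by
          intro c a ha
          simp only [Set.mem_ofPred_eq] at ha ⊢
          rw [map_smul, Polynomial.derivative_smul, ha, mul_smul_comm, smul_mul_assoc,
            smul_sub] } ?_ ?_ a
    · show Polynomial.derivative (Θ 1) = Polynomial.C H * Θ 1 - Θ 1 * Polynomial.C H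
      rw [map_one, Polynomial.derivative_one, mul_one, one_mul, sub_self]
    · intro g b hb
      have hb' : Polynomial.derivative (Θ b) =
        Polynomial.C H * Θ b - Θ b * Polynomial.C H := hb
      show Polynomial.derivative (Θ (Y g * b)) =
        Polynomial.C H * Θ (Y g * b) - Θ (Y g * b) * Polynomial.C H
      have e1 : Polynomial.derivative (Θ (Y g)) =
          Polynomial.C H * Θ (Y g) - Θ (Y g) * Polynomial.C H := by
        rw [hΘ]
        have e2 : Polynomial.derivative (Polynomial.C (Y g) +
            Polynomial.X * Polynomial.C (D g)) = Polynomial.C (D g) := by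
          rw [Polynomial.derivative_add, Polynomial.derivative_C, Polynomial.derivative_mul,
            Polynomial.derivative_X, Polynomial.derivative_C]
          simp
        rw [e2, mul_add, add_mul, ← Polynomial.C_mul, ← Polynomial.C_mul, ← mul_assoc,
          ← Polynomial.X_mul_C, mul_assoc, mul_assoc, ← Polynomial.C_mul, ← Polynomial.C_mul,
          hHD g, ← hH g, Polynomial.C_sub]
        abel
      rw [map_mul, Polynomial.derivative_mul, e1, hb']
      noncomm_ring
  have hc0 : ∀ a, (Θ a).coeff 0 = a := by
    intro a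
    refine hind
      { carrier := {a | (Θ a).coeff 0 = a}
        zero_mem' := by simp
        add_mem' := by
          intro a b ha hb
          simp only [Set.mem_ofPred_eq] at ha hb ⊢
          rw [map_add, Polynomial.coeff_add, ha, hb]
        smul_mem' := by
          intro c a ha
          simp only [Set.mem_ofPred_eq] at ha ⊢
          rw [map_smul, Polynomial.coeff_smul, ha] } ?_ ?_ a
    · show (Θ 1).coeff 0 = 1
      rw [map_one, Polynomial.coeff_one_zero]
    · intro g b hb
      have hb' : (Θ b).coeff 0 = b := hb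
      show (Θ (Y g * b)).coeff 0 = Y g * b
      rw [map_mul, Polynomial.mul_coeff_zero, hb', hΘ]
      simp
  have hΘD : ∀ g, Θ (D g) = Polynomial.C (D g) := by
    intro g
    have h5 : ∀ k, (Θ (D g)).coeff (k + 1) = 0 := by
      have h6 : ∀ k, H * (Θ (D g)).coeff k - (Θ (D g)).coeff k * H = 0 →
          (Θ (D g)).coeff (k + 1) = 0 := by
        intro k hk
        have h7 := congrArg (fun p => Polynomial.coeff p k) (hder (D g))
        simp only [Polynomial.coeff_derivative, Polynomial.coeff_sub, Polynomial.coeff_C_mul,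
          Polynomial.coeff_mul_C] at h7
        rw [hk] at h7
        have h8 : ((k : K) + 1) • (Θ (D g)).coeff (k + 1) = 0 := by
          rw [Algebra.smul_def, map_add, map_natCast, map_one]
          rw [← h7]
          exact ((Nat.cast_commute k _).add_left (Commute.one_left _)).eq
        have h9 : ((k : K) + 1) ≠ 0 := by exact_mod_cast Nat.succ_ne_zero k
        exact (smul_eq_zero.1 h8).resolve_left h9
      intro k
      induction k with
      | zero =>
        apply h6
        rw [hc0, hHD g, sub_self]
      | succ k ih =>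
        apply h6
        rw [ih, mul_zero, zero_mul, sub_self]
    ext k
    rcases k with _ | k
    · rw [hc0, Polynomial.coeff_C_zero]
    · rw [h5, Polynomial.coeff_C_succ]
  -- `φ` is the evaluation at `1`
  have hφΘ : ∀ a, φ a = (exp_ev (1 : K)) (Θ a) := by
    intro a
    refine exp_ext hind φ ((exp_ev (1 : K)).comp Θ) (fun i => ?_) a
    rw [hφ, AlgHom.comp_apply, hΘ, map_add, map_mul, exp_ev_C, exp_ev_C, exp_ev_X, map_one,
      one_mul]
  have hφD : ∀ g, φ (D g) = D g := by
    intro g
    rw [hφΘ, hΘD, exp_ev_C]
  -- the inverse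
  have hψ1 : ∀ i, (exp_ev (-1 : K)) (Θ (Y i)) = Y i - D i := by
    intro i
    rw [hΘ, map_add, map_mul, exp_ev_C, exp_ev_C, exp_ev_X, map_neg, map_one]
    noncomm_ring
  have hψD : ∀ g, (exp_ev (-1 : K)) (Θ (D g)) = D g := by
    intro g
    rw [hΘD, exp_ev_C]
  rw [Function.bijective_iff_has_inverse]
  refine ⟨fun a => (exp_ev (-1 : K)) (Θ a), fun a => ?_, fun a => ?_⟩
  · refine exp_ext hind (((exp_ev (-1 : K)).comp Θ).comp φ) (AlgHom.id K _) (fun i => ?_) a
    rw [AlgHom.comp_apply, AlgHom.comp_apply, hφ, map_add, map_add, hψ1, hψD]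
    simp
  · refine exp_ext hind (φ.comp ((exp_ev (-1 : K)).comp Θ)) (AlgHom.id K _) (fun i => ?_) a
    rw [AlgHom.comp_apply, AlgHom.comp_apply, hψ1, map_sub, hφ, hφD]
    simp

end exp_section

theorem t_EXP (h1 : S_LIFT) (h2 : S_IND) (h3 : S_CY) : S_EXP := by
  intro K _ _ n D H hDD hcl hH hHD φ hφ
  exact exp_main (fun g => (y g : Weyl K n)) D H (om K) (h3 K n)
    (fun R _ _ u hu => h1 K n R u hu) (h2 K n) hDD hcl hH hHD φ hφ

end Pool.Agent.H119R3.DX
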