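import Pool.Agent.H119R3.DX.Defs

/-!
# GEN: reduction to identity linear part (helper546)
-/

namespace Pool.Agent.H119R3.DX

open MvPolynomial

section GENaux

variable {K R ι : Type} [Field K] [Ring R] [Algebra K R] [Fintype ι]

theorem GEN_comm (yy : ι → R) (o : ι → ι → K)
    (hy : ∀ i j, yy i * yy j - yy j * yy i = algebraMap K R (o i j)) (a b : ι → K) :
    (∑ i, a i • yy i) * (∑ j, b j • yy j) - (∑ j, b j • yy j) * (∑ i, a i • yy i) =
      algebraMap K R (∑ i, ∑ j, a i * o i j * b j) := by
  rw [Finset.sum_mul_sum, Finset.sum_mul_sum, Finset.sum_comm (f := fun j i => b j • yy j * a i • yy i),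
    ← Finset.sum_sub_distrib, map_sum]
  refine Finset.sum_congr rfl fun i _ => ?_
  rw [← Finset.sum_sub_distrib, map_sum]
  refine Finset.sum_congr rfl fun j _ => ?_
  rw [smul_mul_smul_comm, smul_mul_smul_comm, mul_comm (b j) (a i), ← smul_sub, hy i j,
    Algebra.algebraMap_eq_smul_one, Algebra.algebraMap_eq_smul_one, smul_smul]
  congr 1
  ring

theorem GEN_const (A B : R) (p q : K) :
    (A - algebraMap K R p) * (B - algebraMap K R q) -
      (B - algebraMap K R q) * (A - algebraMap K R p) = A * B - B * A := by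
  have e1 := Algebra.commutes p B
  have e2 := Algebra.commutes q A
  have e3 := Algebra.commutes p (algebraMap K R q)
  rw [sub_mul, sub_mul, mul_sub, mul_sub, mul_sub, mul_sub, e1, e2, e3]
  abel

end GENaux

theorem GEN_om_sq (K : Type) [Field K] (n : ℕ) :
    (Matrix.of (om K) : Matrix (Ix n) (Ix n) K) * Matrix.of (om K) = -1 := by
  ext i j
  rcases i with i | i <;> rcases j with j | j <;>
    simp [Matrix.mul_apply, om, Fintype.sum_sum_type, Matrix.one_apply, Matrix.neg_apply]
  split_ifs <;> simp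

theorem t_GEN (h1 : S_ID) (h2 : S_LIFT) (h3 : S_IND) (h4 : S_CY) (h6 : S_LREL) : S_GEN := by
  intro K _ _ n d hd hd4 φ c l D hφ hl hD hlc
  obtain ⟨Lam, -⟩ := h2 K n (Module.End K (P K n)) Lop (h6 K n)
  have : Nontrivial (Weyl K n) := Lam.toRingHom.domain_nontrivial
  have hinj : Function.Injective (algebraMap K (Weyl K n)) := (algebraMap K (Weyl K n)).injective
  have hlM : ∀ g, ∃ v : Ix n → K, ∑ h, v h • (y h : Weyl K n) = l g := by
    intro g
    have hW : W K n 1 ≤ Submodule.span K (Set.range (fun h : Ix n => (y h : Weyl K n))) := by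
      rw [W, Submodule.span_le]
      rintro _ ⟨v, rfl⟩
      simp only [pow_one]
      exact Submodule.sum_mem _ fun g _ => Submodule.smul_mem _ _ (Submodule.subset_span ⟨g, rfl⟩)
    exact (Submodule.mem_span_range_iff_exists_fun K).mp (hW (hl g))
  choose M hM using hlM
  obtain ⟨MM, hMM⟩ : ∃ MM : Matrix (Ix n) (Ix n) K, MM = Matrix.of M := ⟨_, rfl⟩
  obtain ⟨Om, hOm⟩ : ∃ Om : Matrix (Ix n) (Ix n) K, Om = Matrix.of (om K) := ⟨_, rfl⟩
  have hOm2 : Om * Om = -1 := by rw [hOm]; exact GEN_om_sq K n
  -- entries of a product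
  have hent : ∀ (A : Matrix (Ix n) (Ix n) K) (g h : Ix n),
      (A * Om * A.transpose) g h = ∑ i, ∑ j, A g i * om K i j * A h j := by
    intro A g h
    rw [Matrix.mul_apply]
    simp only [Matrix.mul_apply, Matrix.transpose_apply, Finset.sum_mul, hOm, Matrix.of_apply]
    rw [Finset.sum_comm]
  have hMO : MM * Om * MM.transpose = Om := by
    ext g h
    apply hinj
    rw [hent, ← GEN_comm (y : Ix n → Weyl K n) (om K) (h4 K n), hMM]
    have e1 : ∑ i, (Matrix.of M : Matrix (Ix n) (Ix n) K) g i • (y i : Weyl K n) = l g := hM g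
    have e2 : ∑ i, (Matrix.of M : Matrix (Ix n) (Ix n) K) h i • (y i : Weyl K n) = l h := hM h
    rw [e1, e2, hlc g h, hOm]
    rfl
  obtain ⟨N, hN⟩ : ∃ N : Matrix (Ix n) (Ix n) K, N = Om * MM.transpose * (-Om) := ⟨_, rfl⟩
  have hMN : MM * N = 1 := by
    rw [hN, ← Matrix.mul_assoc, ← Matrix.mul_assoc, hMO, Matrix.mul_neg, hOm2, neg_neg]
  have hNM : N * MM = 1 := mul_eq_one_comm.mp hMN
  have hNO : N * Om * N.transpose = Om := by
    have e1 : MM.transpose * N.transpose = 1 := by
      rw [← Matrix.transpose_mul, hNM, Matrix.transpose_one]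
    calc N * Om * N.transpose = N * (MM * Om * MM.transpose) * N.transpose := by rw [hMO]
      _ = (N * MM) * Om * (MM.transpose * N.transpose) := by simp only [Matrix.mul_assoc]
      _ = Om := by rw [hNM, e1, Matrix.one_mul, Matrix.mul_one]
  -- the map β
  have hrel : ∀ g h, (∑ i, N g i • (y i : Weyl K n) - algebraMap K (Weyl K n) (∑ i, N g i * c i)) *
      (∑ i, N h i • (y i : Weyl K n) - algebraMap K (Weyl K n) (∑ i, N h i * c i)) -
      (∑ i, N h i • (y i : Weyl K n) - algebraMap K (Weyl K n) (∑ i, N h i * c i)) *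
      (∑ i, N g i • (y i : Weyl K n) - algebraMap K (Weyl K n) (∑ i, N g i * c i)) =
      algebraMap K (Weyl K n) (om K g h) := by
    intro g h
    rw [GEN_const, GEN_comm (y : Ix n → Weyl K n) (om K) (h4 K n), ← hent, hNO, hOm]
    rfl
  obtain ⟨β, hβ⟩ := h2 K n (Weyl K n) (fun g => ∑ i, N g i • (y i : Weyl K n) -
    algebraMap K (Weyl K n) (∑ i, N g i * c i)) hrel
  -- sums against a product of matrices
  have hprod : ∀ (A B : Matrix (Ix n) (Ix n) K) (z : Ix n → Weyl K n) (g : Ix n), A * B = 1 →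
      ∑ i, A g i • ∑ j, B i j • z j = z g := by
    intro A B z g hAB
    have e1 : ∑ i, A g i • ∑ j, B i j • z j = ∑ j, (A * B) g j • z j := by
      simp only [Finset.smul_sum, smul_smul, Matrix.mul_apply, Finset.sum_smul]
      rw [Finset.sum_comm]
    rw [e1, hAB]
    simp only [Matrix.one_apply, ite_smul, one_smul, zero_smul, Finset.sum_ite_eq,
      Finset.mem_univ, if_true]
  have hφβ : ∀ g, (φ.comp β) (y g) - y g ∈ W K n d := by
    intro g
    rw [AlgHom.comp_apply, hβ g, map_sub, map_sum, AlgHom.commutes]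
    have e1 : ∑ i, φ (N g i • (y i : Weyl K n)) =
        algebraMap K (Weyl K n) (∑ i, N g i * c i) + y g + ∑ i, N g i • D i := by
      have e2 : ∀ i, φ (N g i • (y i : Weyl K n)) =
          algebraMap K (Weyl K n) (N g i * c i) + N g i • l i + N g i • D i := by
        intro i
        rw [map_smul, hφ i, smul_add, smul_add, Algebra.smul_def (N g i) (algebraMap K _ (c i)),
          ← map_mul]
      have e3 : ∑ i, N g i • l i = y g := by
        have e4 : ∑ i, N g i • l i = ∑ i, N g i • ∑ j, MM i j • (y j : Weyl K n) := by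
          refine Finset.sum_congr rfl fun i _ => ?_
          rw [← hM i, hMM]
          rfl
        rw [e4, hprod N MM (y : Ix n → Weyl K n) g hNM]
      rw [Finset.sum_congr rfl (fun i _ => e2 i), Finset.sum_add_distrib,
        Finset.sum_add_distrib, e3, map_sum]
    rw [e1]
    have e5 : algebraMap K (Weyl K n) (∑ i, N g i * c i) + y g + ∑ i, N g i • D i -
        algebraMap K (Weyl K n) (∑ i, N g i * c i) - y g = ∑ i, N g i • D i := by abel
    rw [e5]
    exact Submodule.sum_mem _ fun i _ => Submodule.smul_mem _ _ (hD i)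
  have hbij : Function.Bijective (φ.comp β) := h1 K n d hd hd4 (φ.comp β) hφβ
  have hβs : Function.Surjective β := by
    have hgen : ∀ g, ∃ z, β z = (y g : Weyl K n) := by
      intro g
      refine ⟨algebraMap K (Weyl K n) (c g) + ∑ i, MM g i • (y i : Weyl K n), ?_⟩
      rw [map_add, AlgHom.commutes, map_sum]
      have e1 : ∀ i, β (MM g i • (y i : Weyl K n)) =
          MM g i • ∑ j, N i j • ((y j : Weyl K n) - algebraMap K (Weyl K n) (c j)) := by
        intro i
        rw [map_smul, hβ i]
        congr 1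
        simp only [smul_sub, Finset.sum_sub_distrib, map_sum]
        congr 1
        refine Finset.sum_congr rfl fun j _ => ?_
        rw [Algebra.smul_def, ← map_mul]
      rw [Finset.sum_congr rfl (fun i _ => e1 i),
        hprod MM N (fun j => (y j : Weyl K n) - algebraMap K (Weyl K n) (c j)) g hMN]
      abel
    intro a
    have hmem := h3 K n (LinearMap.range β.toLinearMap) ⟨1, map_one β⟩ ?_ a
    · obtain ⟨z, hz⟩ := hmem
      exact ⟨z, hz⟩
    · rintro g _ ⟨w, rfl⟩
      obtain ⟨z, hz⟩ := hgen g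
      exact ⟨z * w, by
        show β (z * w) = y g * β w
        rw [map_mul, hz]⟩
  constructor
  · intro a b hab
    obtain ⟨a', rfl⟩ := hβs a
    obtain ⟨b', rfl⟩ := hβs b
    rw [hbij.1 (show (φ.comp β) a' = (φ.comp β) b' from hab)]
  · intro b
    obtain ⟨a, ha⟩ := hbij.2 b
    exact ⟨β a, ha⟩

end Pool.Agent.H119R3.DX
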