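import Pool.Agent.H119R3.DX.Defs

set_option autoImplicit false

namespace Pool.Agent.H119R3.DX

open MvPolynomial

theorem t_IND : S_IND := by
  intro K _ n M h1 hM a
  have key : ∀ p : FreeAlgebra K (Ix n), ∀ b ∈ M, RingQuot.mkAlgHom K (Rel K n) p * b ∈ M := by
    intro p
    induction p using FreeAlgebra.induction with
    | grade0 r =>
      intro b hb
      rw [AlgHom.commutes, ← Algebra.smul_def]
      exact M.smul_mem r hb
    | grade1 x =>
      intro b hb
      exact hM x b hb
    | mul p q hp hq =>
      intro b hb
      rw [map_mul, mul_assoc]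
      exact hp _ (hq b hb)
    | add p q hp hq =>
      intro b hb
      rw [map_add, add_mul]
      exact M.add_mem (hp b hb) (hq b hb)
  obtain ⟨p, rfl⟩ := RingQuot.mkAlgHom_surjective K (Rel K n) a
  have := key p 1 h1
  rwa [mul_one] at this

end Pool.Agent.H119R3.DX
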