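import Pool.Agent.H119R3.DX.Defs

/-! DX project, LIFT: universal property of the Weyl algebra. -/

namespace Pool.Agent.H119R3.DX

open MvPolynomial

theorem t_LIFT : S_LIFT := by
  intro K _ n R _ _ u hu
  have key : ∀ ⦃a b : FreeAlgebra K (Ix n)⦄, Rel K n a b →
      FreeAlgebra.lift K u a = FreeAlgebra.lift K u b := by
    rintro a b ⟨i, j, h⟩
    rcases h with ⟨rfl, rfl⟩ | ⟨rfl, rfl⟩ | ⟨rfl, rfl⟩
    · have h1 := hu (Sum.inl i) (Sum.inl j)
      simp only [om, map_zero, sub_eq_zero] at h1
      simp only [map_mul, FreeAlgebra.lift_ι_apply]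
      exact h1
    · have h1 := hu (Sum.inr i) (Sum.inr j)
      simp only [om, map_zero, sub_eq_zero] at h1
      simp only [map_mul, FreeAlgebra.lift_ι_apply]
      exact h1
    · have h1 := hu (Sum.inr i) (Sum.inl j)
      simp only [om] at h1
      simp only [map_mul, map_add, FreeAlgebra.lift_ι_apply]
      by_cases hij : i = j
      · simp only [hij, if_true, map_one] at h1 ⊢
        rw [← h1]
        abel
      · simp only [hij, if_false, map_zero, add_zero] at h1 ⊢
        exact sub_eq_zero.1 h1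
  refine ⟨RingQuot.liftAlgHom K ⟨FreeAlgebra.lift K u, key⟩, fun g => ?_⟩
  unfold y
  rw [RingQuot.liftAlgHom_mkAlgHom_apply, FreeAlgebra.lift_ι_apply]

end Pool.Agent.H119R3.DX
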