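import Pool.Agent.H119R3.DX.Defs

/-!
# LREL (helper896): the operators of the generators satisfy the relations
-/

namespace Pool.Agent.H119R3.DX

open MvPolynomial

variable {K : Type} [Field K] {n : ℕ}

/-- the derivation `∑ h, om g h ∂ h` -/
noncomputable def LREL_D (g : Ix n) : Derivation K (P K n) (P K n) :=
  ∑ k, om K g k • (pderiv k : Derivation K (P K n) (P K n))

theorem LREL_D_apply (g : Ix n) (f : P K n) :
    LREL_D g f = ∑ k, C (om K g k) * pderiv k f := by
  unfold LREL_D
  have h := congrFun (map_sum (Derivation.coeFnAddMonoidHom (R := K) (A := P K n) (M := P K n))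
    (fun k => om K g k • (pderiv k : Derivation K (P K n) (P K n))) Finset.univ) f
  rw [Finset.sum_apply] at h
  refine h.trans (Finset.sum_congr rfl fun k _ => ?_)
  show (om K g k • (pderiv k : Derivation K (P K n) (P K n))) f = _
  rw [Derivation.smul_apply, smul_eq_C_mul]

theorem LREL_D_X (g h : Ix n) : LREL_D g (X h : P K n) = C (om K g h) := by
  classical
  rw [LREL_D_apply, Finset.sum_eq_single h]
  · rw [pderiv_X_self, mul_one]
  · intro k _ hk
    rw [pderiv_X_of_ne (Ne.symm hk), mul_zero]
  · intro hh
    exact absurd (Finset.mem_univ h) hh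

theorem LREL_comm (g h : Ix n) (f : P K n) :
    LREL_D g (LREL_D h f) = LREL_D h (LREL_D g f) := by
  have key : ⁅(LREL_D g : Derivation K (P K n) (P K n)),
      (LREL_D h : Derivation K (P K n) (P K n))⁆ = 0 := by
    apply MvPolynomial.derivation_ext
    intro i
    rw [Derivation.commutator_apply, LREL_D_X, LREL_D_X, Derivation.zero_apply]
    rw [← algebraMap_eq, Derivation.map_algebraMap, Derivation.map_algebraMap, sub_zero]
  have h1 := congrArg (fun D => D f) key
  simp only [Derivation.commutator_apply, Derivation.zero_apply] at h1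
  exact sub_eq_zero.1 h1

theorem LREL_Lop (g : Ix n) (f : P K n) : Lop g f = X g * f + C (1 / 2) * LREL_D g f := by
  rw [LREL_D_apply]
  rfl

theorem LREL_anti (K : Type) [Field K] {n : ℕ} (g h : Ix n) : om K h g = - om K g h := by
  rcases g with i | i <;> rcases h with j | j <;> simp only [om, neg_zero]
  · by_cases hij : i = j
    · subst hij; simp
    · rw [if_neg hij, if_neg (Ne.symm hij), neg_zero]
  · by_cases hij : i = j
    · subst hij; simp
    · rw [if_neg hij, if_neg (Ne.symm hij), neg_zero]

theorem t_LREL : S_LREL := by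
  intro K _ _ n g h
  apply LinearMap.ext
  intro f
  rw [LinearMap.sub_apply, Module.End.mul_apply, Module.End.mul_apply, Module.algebraMap_end_apply,
    smul_eq_C_mul]
  have h1 : ∀ a b : Ix n, Lop a (Lop b f) = X a * (X b * f) +
      C (1 / 2) * (X a * LREL_D b f + X b * LREL_D a f) + C (1 / 2) * (C (om K a b) * f) +
      C (1 / 2) * C (1 / 2) * LREL_D a (LREL_D b f) := by
    intro a b
    rw [LREL_Lop, LREL_Lop, map_add, Derivation.leibniz, Derivation.leibniz, LREL_D_X,
      ← algebraMap_eq, Derivation.map_algebraMap]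
    simp only [smul_eq_mul, mul_zero, add_zero]
    ring
  rw [h1 g h, h1 h g, LREL_comm h g f, LREL_anti K g h]
  have h2 : (C (1 / 2) : P K n) * C (om K g h) + C (1 / 2) * C (om K g h) = C (om K g h) := by
    rw [← C_mul, ← C_add]
    congr 1
    ring
  rw [C_neg]
  linear_combination f * h2

end Pool.Agent.H119R3.DX
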