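import Pool.Agent.H119R3.DX.Defs

namespace Pool.Agent.H119R3.DX

open MvPolynomial

variable {K : Type} [Field K] {n : ℕ}

/-- filtration by degree (`PBW_Fil (k + 1)`: degree at most `k`) -/
inductive PBW_Fil : ℕ → Weyl K n → Prop
  | zero (k : ℕ) : PBW_Fil k 0
  | one (k : ℕ) (c : K) : PBW_Fil (k + 1) (algebraMap K (Weyl K n) c)
  | mul (k : ℕ) (g : Ix n) (a : Weyl K n) : PBW_Fil k a → PBW_Fil (k + 1) (y g * a)
  | add (k : ℕ) (a b : Weyl K n) : PBW_Fil k a → PBW_Fil k b → PBW_Fil k (a + b)

lemma PBW_smul {k : ℕ} {a : Weyl K n} (h : PBW_Fil k a) (c : K) : PBW_Fil k (c • a) := by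
  induction h with
  | zero k => rw [smul_zero]; exact .zero k
  | one k d =>
    have : c • algebraMap K (Weyl K n) d = algebraMap K (Weyl K n) (c * d) := by
      rw [Algebra.smul_def, map_mul]
    rw [this]; exact .one k _
  | mul k g a _ ih => rw [← mul_smul_comm]; exact .mul k g _ ih
  | add k a b _ _ iha ihb => rw [smul_add]; exact .add k _ _ iha ihb

lemma PBW_neg_smul (c : K) (a : Weyl K n) : -(c • a) = (-c) • a :=
  neg_eq_of_add_eq_zero_right (by rw [← add_smul, add_neg_cancel, zero_smul])

lemma PBW_succ {k : ℕ} {a : Weyl K n} (h : PBW_Fil k a) : PBW_Fil (k + 1) a := by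
  induction h with
  | zero k => exact .zero _
  | one k d => exact .one _ _
  | mul k g a _ ih => exact .mul _ g _ ih
  | add k a b _ _ iha ihb => exact .add _ _ _ iha ihb

lemma PBW_mono {k l : ℕ} {a : Weyl K n} (h : PBW_Fil k a) (hkl : k ≤ l) : PBW_Fil l a := by
  induction hkl with
  | refl => exact h
  | step _ ih => exact PBW_succ ih

lemma PBW_fil0 {k : ℕ} {a : Weyl K n} (h : PBW_Fil k a) : k = 0 → a = 0 := by
  induction h with
  | zero k => intro _; rfl
  | one k d => intro h; omega
  | mul k g a _ ih => intro h; omega
  | add k a b _ _ iha ihb => intro h; rw [iha h, ihb h, add_zero]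

lemma PBW_fil1 {k : ℕ} {a : Weyl K n} (h : PBW_Fil k a) :
    k = 1 → ∃ c : K, a = algebraMap K (Weyl K n) c := by
  induction h with
  | zero k => intro _; exact ⟨0, by rw [map_zero]⟩
  | one k d => intro h; exact ⟨d, rfl⟩
  | mul k g a ha ih =>
    intro h
    exact ⟨0, by rw [map_zero, PBW_fil0 ha (by omega), mul_zero]⟩
  | add k a b _ _ iha ihb =>
    intro h
    obtain ⟨c, hc⟩ := iha h
    obtain ⟨d, hd⟩ := ihb h
    exact ⟨c + d, by rw [map_add, hc, hd]⟩

lemma PBW_sum {ι : Type} {k : ℕ} (s : Finset ι) (f : ι → Weyl K n) (h : ∀ i ∈ s, PBW_Fil k (f i)) :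
    PBW_Fil k (∑ i ∈ s, f i) := by
  classical
  induction s using Finset.induction_on with
  | empty => rw [Finset.sum_empty]; exact .zero k
  | insert i s hi ih =>
    rw [Finset.sum_insert hi]
    exact .add k _ _ (h i (Finset.mem_insert_self i s))
      (ih fun j hj => h j (Finset.mem_insert_of_mem hj))

lemma PBW_com_mul (h1 : S_CY) (g j : Ix n) (a : Weyl K n) :
    y g * (y j * a) - y j * a * y g = om K g j • a + y j * (y g * a - a * y g) := by
  have e : y g * (y j * a) - y j * a * y g =
      (y g * y j - y j * y g) * a + y j * (y g * a - a * y g) := by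
    simp only [sub_mul, mul_sub, mul_assoc]; abel
  rw [e, h1 K n g j, ← Algebra.smul_def]

lemma PBW_com (h1 : S_CY) (g : Ix n) {k : ℕ} {a : Weyl K n} (h : PBW_Fil k a) :
    PBW_Fil (k - 1) (y g * a - a * y g) := by
  induction h with
  | zero k => rw [mul_zero, zero_mul, sub_zero]; exact .zero _
  | one k d =>
    rw [← Algebra.commutes, sub_self]; exact .zero _
  | mul k j a ha ih =>
    rw [PBW_com_mul h1, Nat.add_sub_cancel]
    refine .add _ _ _ (PBW_smul ha _) ?_
    rcases k with _ | k
    · rw [PBW_fil0 ha rfl]; simp only [mul_zero, zero_mul, sub_zero]; exact .zero _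
    · exact .mul k j _ ih
  | add k a b _ _ iha ihb =>
    have e : y g * (a + b) - (a + b) * y g = (y g * a - a * y g) + (y g * b - b * y g) := by
      rw [mul_add, add_mul]; abel
    rw [e]; exact .add _ _ _ iha ihb

/-- partial derivatives in the Weyl algebra -/
noncomputable def PBW_del (g : Ix n) (a : Weyl K n) : Weyl K n :=
  match g with
  | Sum.inl i => y (Sum.inr i) * a - a * y (Sum.inr i)
  | Sum.inr i => (-1 : K) • (y (Sum.inl i) * a - a * y (Sum.inl i))

lemma PBW_del_fil (h1 : S_CY) (g : Ix n) {k : ℕ} {a : Weyl K n} (h : PBW_Fil k a) :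
    PBW_Fil (k - 1) (PBW_del g a) := by
  rcases g with i | i
  · exact PBW_com h1 _ h
  · exact PBW_smul (PBW_com h1 _ h) _

lemma PBW_del_add (g : Ix n) (a b : Weyl K n) :
    PBW_del g (a + b) = PBW_del g a + PBW_del g b := by
  rcases g with i | i
  · show y (Sum.inr i) * (a + b) - (a + b) * y (Sum.inr i) =
      (y (Sum.inr i) * a - a * y (Sum.inr i)) + (y (Sum.inr i) * b - b * y (Sum.inr i))
    rw [mul_add, add_mul]; abel
  · show (-1 : K) • (y (Sum.inl i) * (a + b) - (a + b) * y (Sum.inl i)) =
      (-1 : K) • (y (Sum.inl i) * a - a * y (Sum.inl i)) +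
        (-1 : K) • (y (Sum.inl i) * b - b * y (Sum.inl i))
    rw [← smul_add, mul_add, add_mul]; congr 1; abel

lemma PBW_del_alg (g : Ix n) (c : K) : PBW_del g (algebraMap K (Weyl K n) c) = 0 := by
  rcases g with i | i
  · show y (Sum.inr i) * algebraMap K (Weyl K n) c - algebraMap K (Weyl K n) c * y (Sum.inr i) = 0
    rw [← Algebra.commutes, sub_self]
  · show (-1 : K) • (y (Sum.inl i) * algebraMap K (Weyl K n) c -
      algebraMap K (Weyl K n) c * y (Sum.inl i)) = 0
    rw [← Algebra.commutes, sub_self, smul_zero]

lemma PBW_del_mul (h1 : S_CY) (g j : Ix n) (a : Weyl K n) :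
    PBW_del g (y j * a) = (if g = j then a else 0) + y j * PBW_del g a := by
  rcases g with i | i
  · show y (Sum.inr i) * (y j * a) - y j * a * y (Sum.inr i) = (if Sum.inl i = j then a else 0) +
      y j * (y (Sum.inr i) * a - a * y (Sum.inr i))
    rw [PBW_com_mul h1]
    congr 1
    rcases j with j | j
    · simp only [om, Sum.inl.injEq]
      split_ifs <;> simp
    · simp [om]
  · show (-1 : K) • (y (Sum.inl i) * (y j * a) - y j * a * y (Sum.inl i)) =
      (if Sum.inr i = j then a else 0) +
      y j * ((-1 : K) • (y (Sum.inl i) * a - a * y (Sum.inl i)))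
    rw [PBW_com_mul h1, smul_add, mul_smul_comm]
    congr 1
    rcases j with j | j
    · simp [om]
    · simp only [om, Sum.inr.injEq]
      split_ifs
      · rw [smul_smul, neg_mul_neg, one_mul, one_smul]
      · rw [zero_smul, smul_zero]

/-- Euler operator -/
noncomputable def PBW_E (a : Weyl K n) : Weyl K n := ∑ g, y g * PBW_del g a

lemma PBW_E_add (a b : Weyl K n) : PBW_E (a + b) = PBW_E a + PBW_E b := by
  unfold PBW_E
  rw [← Finset.sum_add_distrib]
  exact Finset.sum_congr rfl fun g _ => by rw [PBW_del_add, mul_add]

lemma PBW_E_mul (h1 : S_CY) (j : Ix n) (a : Weyl K n) :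
    PBW_E (y j * a) = y j * a + y j * PBW_E a + ∑ g, om K g j • PBW_del g a := by
  unfold PBW_E
  have e : ∀ g : Ix n, y g * PBW_del g (y j * a) =
      (if g = j then y g * a else 0) + (y j * (y g * PBW_del g a) + om K g j • PBW_del g a) := by
    intro g
    rw [PBW_del_mul h1, mul_add]
    congr 1
    · split_ifs <;> simp
    · have h2 := h1 K n g j
      rw [← mul_assoc, ← mul_assoc, Algebra.smul_def, ← h2, sub_mul]
      abel
  rw [Finset.sum_congr rfl fun g _ => e g, Finset.sum_add_distrib, Finset.sum_add_distrib,
    Finset.sum_ite_eq' Finset.univ j, if_pos (Finset.mem_univ j), Finset.mul_sum, add_assoc]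

lemma PBW_euler (h1 : S_CY) {k : ℕ} {a : Weyl K n} (h : PBW_Fil k a) :
    PBW_Fil (k - 1) (PBW_E a - ((k - 1 : ℕ) : K) • a) := by
  induction h with
  | zero k =>
    have : PBW_E (0 : Weyl K n) = 0 := by
      have := PBW_E_add (0 : Weyl K n) 0
      rw [add_zero] at this
      simpa using this
    rw [this, smul_zero, sub_zero]; exact .zero _
  | one k d =>
    have : PBW_E (algebraMap K (Weyl K n) d) = 0 := by
      unfold PBW_E
      exact Finset.sum_eq_zero fun g _ => by rw [PBW_del_alg, mul_zero]
    rw [this, zero_sub, Nat.add_sub_cancel, PBW_neg_smul]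
    rcases k with _ | k
    · simp only [Nat.cast_zero, neg_zero, zero_smul]; exact .zero _
    · exact PBW_smul (.one k d) _
  | mul k j a ha ih =>
    rw [Nat.add_sub_cancel]
    rcases k with _ | k
    · rw [PBW_fil0 ha rfl, mul_zero, Nat.cast_zero, zero_smul, sub_zero]
      have : PBW_E (0 : Weyl K n) = 0 := by
        have := PBW_E_add (0 : Weyl K n) 0
        rw [add_zero] at this
        simpa using this
      rw [this]; exact .zero _
    · rw [PBW_E_mul h1]
      rw [Nat.add_sub_cancel] at ih
      have e : y j * a + y j * PBW_E a + ∑ g, om K g j • PBW_del g a - ((k + 1 : ℕ) : K) • (y j * a) =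
          y j * (PBW_E a - (k : K) • a) + ∑ g, om K g j • PBW_del g a := by
        rw [mul_sub, mul_smul_comm, Nat.cast_succ, add_smul, one_smul]
        abel
      rw [e]
      refine .add _ _ _ (.mul k j _ ih) (PBW_sum _ _ fun g _ => PBW_smul (PBW_succ ?_) _)
      have := PBW_del_fil h1 g ha
      rwa [Nat.add_sub_cancel] at this
  | add k a b _ _ iha ihb =>
    have e : PBW_E (a + b) - ((k - 1 : ℕ) : K) • (a + b) =
        (PBW_E a - ((k - 1 : ℕ) : K) • a) + (PBW_E b - ((k - 1 : ℕ) : K) • b) := by
      rw [PBW_E_add, smul_add]; abel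
    rw [e]; exact .add _ _ _ iha ihb

/-- the derivation on symbols -/
noncomputable def PBW_D (g : Ix n) (f : P K n) : P K n := ∑ h, C (om K g h) * pderiv h f

lemma PBW_D_add (g : Ix n) (f f' : P K n) : PBW_D g (f + f') = PBW_D g f + PBW_D g f' := by
  unfold PBW_D
  rw [← Finset.sum_add_distrib]
  exact Finset.sum_congr rfl fun h _ => by rw [map_add, mul_add]

lemma PBW_D_C (g : Ix n) (c : K) (f : P K n) : PBW_D g (C c * f) = C c * PBW_D g f := by
  unfold PBW_D
  rw [Finset.mul_sum]
  exact Finset.sum_congr rfl fun h _ => by rw [pderiv_C_mul]; ring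

lemma PBW_D_X (g j : Ix n) (f : P K n) :
    PBW_D g (X j * f) = C (om K g j) * f + X j * PBW_D g f := by
  unfold PBW_D
  have e : ∀ h : Ix n, C (om K g h) * pderiv h (X j * f) =
      (if h = j then C (om K g h) * f else 0) + X j * (C (om K g h) * pderiv h f) := by
    intro h
    rw [pderiv_mul, pderiv_X]
    rcases eq_or_ne h j with hj | hj
    · subst hj; simp; ring
    · rw [Pi.single_eq_of_ne (Ne.symm hj), if_neg hj]; ring
  rw [Finset.sum_congr rfl fun h _ => e h, Finset.sum_add_distrib,
    Finset.sum_ite_eq' Finset.univ j, if_pos (Finset.mem_univ j), Finset.mul_sum]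

lemma PBW_pd_comm (i j : Ix n) (f : P K n) : pderiv i (pderiv j f) = pderiv j (pderiv i f) := by
  induction f using MvPolynomial.induction_on with
  | C c => simp
  | add p q hp hq => rw [map_add, map_add, map_add, map_add, hp, hq]
  | mul_X p k hp =>
    simp only [pderiv_mul, map_add, hp]
    have h1 : ∀ a b : Ix n, pderiv a (pderiv b (X k : P K n)) = 0 := by
      intro a b
      rw [pderiv_X]
      rcases eq_or_ne k b with hb | hb
      · subst hb; simp
      · rw [Pi.single_eq_of_ne hb]; simp
    rw [h1, h1]; ring

lemma PBW_D_comm (g j : Ix n) (f : P K n) : PBW_D g (PBW_D j f) = PBW_D j (PBW_D g f) := by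
  have e : ∀ g j : Ix n, PBW_D g (PBW_D j f) =
      ∑ a, ∑ b, C (om K g a) * (C (om K j b) * pderiv a (pderiv b f)) := by
    intro g j
    unfold PBW_D
    refine Finset.sum_congr rfl fun a _ => ?_
    rw [map_sum, Finset.mul_sum]
    refine Finset.sum_congr rfl fun b _ => ?_
    rw [pderiv_C_mul]
  rw [e, e, Finset.sum_comm]
  refine Finset.sum_congr rfl fun a _ => Finset.sum_congr rfl fun b _ => ?_
  rw [PBW_pd_comm]; ring

lemma PBW_sym (h1 : S_CY) (h2 : S_IND) (Lam : Weyl K n →ₐ[K] Module.End K (P K n))
    (hL : ∀ g, Lam (y g) = Lop g) (g : Ix n) (a : Weyl K n) :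
    Lam (y g * a - a * y g) 1 = PBW_D g (Lam a 1) := by
  have key : ∀ a : Weyl K n, a ∈ ({ carrier := {a | Lam (y g * a - a * y g) 1 = PBW_D g (Lam a 1)}
                                    add_mem' := by
                                      intro a b ha hb
                                      simp only [Set.mem_setOf_eq] at ha hb ⊢
                                      have e : y g * (a + b) - (a + b) * y g =
                                          (y g * a - a * y g) + (y g * b - b * y g) := by
                                        rw [mul_add, add_mul]; abel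
                                      rw [e, map_add, map_add, LinearMap.add_apply,
                                        LinearMap.add_apply, ha, hb, PBW_D_add]
                                    zero_mem' := by
                                      simp only [Set.mem_setOf_eq, mul_zero, zero_mul, sub_zero,
                                        map_zero, LinearMap.zero_apply]
                                      unfold PBW_D
                                      simp
                                    smul_mem' := by
                                      intro c a ha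
                                      simp only [Set.mem_setOf_eq] at ha ⊢
                                      rw [mul_smul_comm, smul_mul_assoc, ← smul_sub, map_smul,
                                        map_smul, LinearMap.smul_apply, LinearMap.smul_apply, ha,
                                        smul_eq_C_mul, smul_eq_C_mul, PBW_D_C] } :
                                  Submodule K (Weyl K n)) := by
    apply h2
    · show Lam (y g * 1 - 1 * y g) 1 = PBW_D g (Lam 1 1)
      rw [mul_one, one_mul, sub_self, map_zero Lam, map_one Lam, LinearMap.zero_apply, Module.End.one_apply]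
      unfold PBW_D
      simp
    · intro j a ha
      have ha' : Lam (y g * a - a * y g) 1 = PBW_D g (Lam a 1) := ha
      show Lam (y g * (y j * a) - y j * a * y g) 1 = PBW_D g (Lam (y j * a) 1)
      rw [PBW_com_mul h1, map_add, map_smul, map_mul, map_mul, hL, LinearMap.add_apply,
        LinearMap.smul_apply, Module.End.mul_apply, Module.End.mul_apply, ha']
      have e : ∀ (i : Ix n) (f : P K n), Lop i f = X i * f + C (1 / 2) * PBW_D i f := fun _ _ => rfl
      rw [e, e, PBW_D_add, PBW_D_X, PBW_D_C, PBW_D_comm g j, smul_eq_C_mul]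
      ring
  exact key a

lemma PBW_main [CharZero K] (h1 : S_CY) (h2 : S_IND)
    (Lam : Weyl K n →ₐ[K] Module.End K (P K n)) (hL : ∀ g, Lam (y g) = Lop g) (k : ℕ) :
    ∀ a, PBW_Fil k a → Lam a 1 = 0 → a = 0 := by
  induction k with
  | zero => intro a ha _; exact PBW_fil0 ha rfl
  | succ k ih =>
    intro a ha hs
    rcases k with _ | k
    · obtain ⟨c, rfl⟩ := PBW_fil1 ha rfl
      rw [AlgHom.commutes, Module.algebraMap_end_apply, smul_eq_C_mul, mul_one] at hs
      have : c = 0 := by simpa using hs
      rw [this, map_zero]
    · have hcom : ∀ g : Ix n, y g * a - a * y g = 0 := by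
        intro g
        apply ih
        · have := PBW_com h1 g ha
          rwa [Nat.add_sub_cancel] at this
        · rw [PBW_sym h1 h2 Lam hL, hs]
          unfold PBW_D
          simp
      have hE : PBW_E a = 0 := by
        unfold PBW_E
        refine Finset.sum_eq_zero fun g _ => ?_
        rcases g with i | i
        · show y (Sum.inl i) * (y (Sum.inr i) * a - a * y (Sum.inr i)) = 0
          rw [hcom, mul_zero]
        · show y (Sum.inr i) * ((-1 : K) • (y (Sum.inl i) * a - a * y (Sum.inl i))) = 0
          rw [hcom, smul_zero, mul_zero]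
      have he := PBW_euler h1 ha
      rw [hE, zero_sub, Nat.add_sub_cancel, PBW_neg_smul] at he
      have hk : (-((k + 1 : ℕ) : K)) ≠ 0 := by
        rw [neg_ne_zero]
        exact_mod_cast Nat.succ_ne_zero k
      have he2 := PBW_smul he (-((k + 1 : ℕ) : K))⁻¹
      rw [smul_smul, inv_mul_cancel₀ hk, one_smul] at he2
      exact ih a he2 hs

lemma PBW_ex (h2 : S_IND) (a : Weyl K n) : ∃ k, PBW_Fil k a := by
  have key : ∀ a : Weyl K n, a ∈ ({ carrier := {a | ∃ k, PBW_Fil k a}
                                    add_mem' := by
                                      rintro a b ⟨k, hk⟩ ⟨l, hl⟩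
                                      exact ⟨max k l, .add _ _ _ (PBW_mono hk (le_max_left _ _))
                                        (PBW_mono hl (le_max_right _ _))⟩
                                    zero_mem' := ⟨0, .zero 0⟩
                                    smul_mem' := by
                                      rintro c a ⟨k, hk⟩
                                      exact ⟨k, PBW_smul hk c⟩ } :
                                  Submodule K (Weyl K n)) := by
    apply h2
    · exact ⟨1, by rw [← map_one (algebraMap K (Weyl K n))]; exact .one 0 1⟩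
    · rintro g a ⟨k, hk⟩
      exact ⟨k + 1, .mul k g a hk⟩
  exact key a

theorem t_PBW (h1 : S_CY) (h2 : S_IND) : S_PBW := by
  intro K _ _ n Lam hL a ha
  obtain ⟨k, hk⟩ := PBW_ex h2 a
  exact PBW_main h1 h2 Lam hL k a hk ha

end Pool.Agent.H119R3.DX
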