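import Pool.Agent.H119R3.DX.Defs

/-!
# SEP: separation of degrees
-/

namespace Pool.Agent.H119R3.DX

open MvPolynomial

theorem t_SEP (_h0 : S_LREL) (h1 : S_COMM) (h2 : S_BHOM) (hcy : S_CY) : S_SEP := by
  intro K _ _ n Lam hLam d D hd hd4 hhom hrel
  have hX : ∀ g, Lam (y g) 1 = X g := by
    intro g
    rw [hLam]
    simp [Lop]
  have hXh : ∀ g, (Lam (y g) 1).IsHomogeneous 1 := by
    intro g
    rw [hX]
    exact isHomogeneous_X _ _
  have hcl : ∀ g h, (y g * D h - D h * y g + (D g * y h - y h * D g)) +
      (D g * D h - D h * D g) = 0 := by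
    intro g h
    have e1 := hrel g h
    rw [← hcy K n g h] at e1
    have e2 : (y g + D g) * (y h + D h) - (y h + D h) * (y g + D g) =
        (y g * y h - y h * y g) + ((y g * D h - D h * y g + (D g * y h - y h * D g)) +
          (D g * D h - D h * D g)) := by
      simp only [mul_add, add_mul]
      abel
    rw [e2] at e1
    exact left_eq_add.mp e1.symm
  have hA : ∀ g h, (Lam (y g * D h - D h * y g) 1).IsHomogeneous (d - 1) := by
    intro g h
    rw [h1 K n Lam hLam 1 d _ _ (hXh g) (hhom h)]
    refine IsHomogeneous.sum _ _ _ fun r hr => ?_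
    obtain ⟨hr1, hr2⟩ := Finset.mem_filter.1 hr
    have hr3 := Finset.mem_range.1 hr1
    have hr4 : r = 1 := by omega
    subst hr4
    have := (h2 K n 1 1 d _ _ (hXh g) (hhom h)).1 le_rfl (by omega)
    have e : 1 + d - 2 * 1 = d - 1 := by omega
    rw [e] at this
    exact this.C_mul _
  have hB : ∀ g h, (Lam (D g * y h - y h * D g) 1).IsHomogeneous (d - 1) := by
    intro g h
    rw [h1 K n Lam hLam d 1 _ _ (hhom g) (hXh h)]
    refine IsHomogeneous.sum _ _ _ fun r hr => ?_
    obtain ⟨hr1, hr2⟩ := Finset.mem_filter.1 hr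
    have hr3 := Finset.mem_range.1 hr1
    have hr4 : r = 1 := by omega
    subst hr4
    have := (h2 K n 1 d 1 _ _ (hhom g) (hXh h)).1 (by omega) le_rfl
    have e : d + 1 - 2 * 1 = d - 1 := by omega
    rw [e] at this
    exact this.C_mul _
  have hS : ∀ g h, Lam (y g * D h - D h * y g + (D g * y h - y h * D g)) 1 +
      Lam (D g * D h - D h * D g) 1 = 0 := by
    intro g h
    rw [← LinearMap.add_apply, ← map_add, hcl, map_zero]
    rfl
  have hAB : ∀ g h, (Lam (y g * D h - D h * y g + (D g * y h - y h * D g)) 1).IsHomogeneous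
      (d - 1) := by
    intro g h
    rw [map_add, LinearMap.add_apply]
    exact (hA g h).add (hB g h)
  have hBz : ∀ g h r, r % 2 = 1 → B r (Lam (D g) 1) (Lam (D h) 1) = 0 := by
    intro g h r hr
    rcases le_or_gt r d with hrd | hrd
    · have e1 := hS g h
      rw [h1 K n Lam hLam d d _ _ (hhom g) (hhom h)] at e1
      have e2 := congrArg (homogeneousComponent (d + d - 2 * r)) e1
      rw [map_add, homogeneousComponent_of_mem (hAB g h), if_neg (by omega), zero_add,
        map_sum, Finset.sum_eq_single r] at e2
      · rw [map_zero, homogeneousComponent_C_mul,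
          homogeneousComponent_of_mem (((h2 K n r d d _ _ (hhom g) (hhom h)).1 hrd hrd)),
          if_pos rfl] at e2
        have e3 := mul_eq_zero.1 e2
        refine e3.resolve_left ?_
        intro h0
        have h3 := C_injective (Ix n) K (h0.trans (map_zero _).symm)
        have h4 : (2 : K) / (2 ^ r * (r.factorial : K)) ≠ 0 := by
          have : (r.factorial : K) ≠ 0 := by exact_mod_cast r.factorial_ne_zero
          exact div_ne_zero two_ne_zero (mul_ne_zero (pow_ne_zero _ two_ne_zero) this)
        exact h4 h3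
      · intro b hb hbr
        obtain ⟨hb1, hb2⟩ := Finset.mem_filter.1 hb
        have hbd : b ≤ d := by
          have := Finset.mem_range.1 hb1
          omega
        rw [homogeneousComponent_C_mul,
          homogeneousComponent_of_mem (((h2 K n b d d _ _ (hhom g) (hhom h)).1 hbd hbd)),
          if_neg (by omega), mul_zero]
      · intro hnot
        exfalso
        apply hnot
        rw [Finset.mem_filter, Finset.mem_range]
        omega
    · exact (h2 K n r d d _ _ (hhom g) (hhom h)).2 (Or.inl hrd)
  refine ⟨fun g h => ?_, hBz⟩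
  have e1 := hS g h
  rw [h1 K n Lam hLam d d _ _ (hhom g) (hhom h), Finset.sum_eq_zero, add_zero] at e1
  · exact e1
  · intro r hr
    rw [hBz g h r (Finset.mem_filter.1 hr).2, mul_zero]

end Pool.Agent.H119R3.DX
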