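import Pool.Agent.H119R3.DX.Defs

/-! Task STAR: the Moyal product formula (helper675). -/

namespace Pool.Agent.H119R3.DX

open MvPolynomial

section star

variable {K : Type} [Field K] {n : ℕ}

/-- the Moyal product with `g`, truncated -/
noncomputable def starOp (q : ℕ) (g f : P K n) : P K n :=
  ∑ r ∈ Finset.range (q + 1), C (1 / (2 ^ r * (r.factorial : K))) * B r f g

private theorem star_B_zero (h1 : S_BADD) (r : ℕ) (g : P K n) : B r (0 : P K n) g = 0 := by
  have h := (h1 K n r).2.2.1 0 0 g
  simpa using h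

private theorem star_B_zero' (h1 : S_BADD) (r : ℕ) (f : P K n) : B r f (0 : P K n) = 0 := by
  have h := (h1 K n r).2.2.2.1 0 f 0
  simpa using h

private theorem star_add (h1 : S_BADD) (q : ℕ) (g f f' : P K n) :
    starOp q g (f + f') = starOp q g f + starOp q g f' := by
  unfold starOp
  rw [← Finset.sum_add_distrib]
  refine Finset.sum_congr rfl fun r _ => ?_
  rw [(h1 K n r).1, mul_add]

private theorem star_C (h1 : S_BADD) (q : ℕ) (g f : P K n) (c : K) :
    starOp q g (C c * f) = C c * starOp q g f := by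
  unfold starOp
  rw [Finset.mul_sum]
  refine Finset.sum_congr rfl fun r _ => ?_
  rw [(h1 K n r).2.2.1]
  ring

private theorem star_zero (h1 : S_BADD) (q : ℕ) (g : P K n) : starOp q g 0 = 0 := by
  unfold starOp
  refine Finset.sum_eq_zero fun r _ => ?_
  rw [star_B_zero h1, mul_zero]

private theorem star_one (h1 : S_BADD) (q : ℕ) (g : P K n) : starOp q g 1 = g := by
  unfold starOp
  rw [Finset.sum_range_succ', Finset.sum_eq_zero]
  · have h0 : B 0 (1 : P K n) g = 1 * g := rfl
    rw [h0]
    simp
  · intro r _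
    have h : B (r + 1) (1 : P K n) g =
        ∑ a, ∑ b, C (om K a b) * B r (pderiv a (1 : P K n)) (pderiv b g) := rfl
    rw [h, Finset.sum_eq_zero, mul_zero]
    intro a _
    refine Finset.sum_eq_zero fun b _ => ?_
    have h2 : pderiv a (1 : P K n) = 0 := by
      have := pderiv_C (R := K) (a := (1 : K)) (i := a)
      simpa using this
    rw [h2, star_B_zero h1, mul_zero]

private theorem star_last (h1 : S_BADD) (h4 : S_BZERO) {q : ℕ} {g : P K n}
    (hg : g.IsHomogeneous q) (f : P K n) (b : Ix n) : B q f (pderiv b g) = 0 := by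
  rcases Nat.eq_zero_or_pos q with rfl | hq
  · have : pderiv b g = 0 := by
      have h0 := (totalDegree_eq_zero_iff_eq_C).mp (Nat.le_zero.mp hg.totalDegree_le)
      rw [h0, pderiv_C]
    rw [this, star_B_zero' h1]
  · exact h4 K n q (q - 1) f _ hg.pderiv (by omega)

private theorem star_X (h1 : S_BADD) (h2 : S_BX) (h4 : S_BZERO) [CharZero K] {q : ℕ} {g : P K n}
    (hg : g.IsHomogeneous q) (i : Ix n) (f : P K n) :
    starOp q g (X i * f) = X i * starOp q g f + C (1 / 2) *
      ∑ r ∈ Finset.range (q + 1), C (1 / (2 ^ r * (r.factorial : K))) *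
        ∑ b, C (om K i b) * B r f (pderiv b g) := by
  have e0 : B 0 (X i * f) g = X i * B 0 f g := by
    show X i * f * g = X i * (f * g)
    ring
  have e1 : ∀ r : ℕ, C (1 / (2 ^ (r + 1) * ((r + 1).factorial : K))) * B (r + 1) (X i * f) g =
      X i * (C (1 / (2 ^ (r + 1) * ((r + 1).factorial : K))) * B (r + 1) f g) +
      C (1 / 2) * (C (1 / (2 ^ r * (r.factorial : K))) *
        ∑ b, C (om K i b) * B r f (pderiv b g)) := by
    intro r
    rw [h2 K n r i f g, mul_add]
    have e2 : (C (1 / (2 ^ (r + 1) * ((r + 1).factorial : K))) : P K n) * C ((r : K) + 1) =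
        C (1 / 2) * C (1 / (2 ^ r * (r.factorial : K))) := by
      rw [← C_mul, ← C_mul]
      congr 1
      have hr : ((r : K) + 1) ≠ 0 := by exact_mod_cast Nat.succ_ne_zero r
      have hf : (r.factorial : K) ≠ 0 := by exact_mod_cast Nat.factorial_ne_zero r
      rw [Nat.factorial_succ]
      push_cast
      rw [pow_succ]
      field_simp
    rw [← mul_assoc (C (1 / (2 ^ (r + 1) * ((r + 1).factorial : K)))) (C ((r : K) + 1)), e2]
    ring
  have hL : starOp q g (X i * f) =
      X i * starOp q g f + C (1 / 2) *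
        ∑ r ∈ Finset.range q, C (1 / (2 ^ r * (r.factorial : K))) *
          ∑ b, C (om K i b) * B r f (pderiv b g) := by
    unfold starOp
    rw [Finset.sum_range_succ', Finset.sum_range_succ' _ q, e0, Finset.sum_congr rfl
      fun r _ => e1 r, Finset.sum_add_distrib, mul_add, Finset.mul_sum, Finset.mul_sum]
    ring
  rw [hL, Finset.sum_range_succ]
  congr 2
  rw [Finset.sum_eq_zero (s := Finset.univ), mul_zero, add_zero]
  intro b _
  rw [star_last h1 h4 hg, mul_zero]

private theorem star_sum (h1 : S_BADD) (q : ℕ) (g : P K n) (F : Ix n → P K n) :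
    starOp q g (∑ m, F m) = ∑ m, starOp q g (F m) := by
  unfold starOp
  rw [Finset.sum_comm]
  refine Finset.sum_congr rfl fun r _ => ?_
  rw [(h1 K n r).2.2.2.2.1, Finset.mul_sum]

private theorem star_Lop (h1 : S_BADD) (h2 : S_BX) (h3 : S_BDER) (h4 : S_BZERO) [CharZero K]
    {q : ℕ} {g : P K n} (hg : g.IsHomogeneous q) (i : Ix n) (f : P K n) :
    starOp q g (Lop i f) = Lop i (starOp q g f) := by
  have eL : ∀ f : P K n, Lop i f = X i * f + C (1 / 2) * ∑ h, C (om K i h) * pderiv h f :=
    fun f => rfl
  have hd : ∀ b : Ix n, pderiv b (starOp q g f) =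
      starOp q g (pderiv b f) +
        ∑ r ∈ Finset.range (q + 1), C (1 / (2 ^ r * (r.factorial : K))) *
          B r f (pderiv b g) := by
    intro b
    unfold starOp
    rw [map_sum, ← Finset.sum_add_distrib]
    refine Finset.sum_congr rfl fun r _ => ?_
    rw [pderiv_C_mul, h3 K n r b f g, mul_add]
  rw [eL, eL, star_add h1, star_C h1, star_X h1 h2 h4 hg, star_sum h1]
  have e3 : ∑ h, C (om K i h) * pderiv h (starOp q g f) =
      ∑ m, starOp q g (C (om K i m) * pderiv m f) +
      ∑ r ∈ Finset.range (q + 1), C (1 / (2 ^ r * (r.factorial : K))) *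
        ∑ b, C (om K i b) * B r f (pderiv b g) := by
    have e4 : ∑ r ∈ Finset.range (q + 1), C (1 / (2 ^ r * (r.factorial : K))) *
        ∑ b, C (om K i b) * B r f (pderiv b g) =
        ∑ b, C (om K i b) * ∑ r ∈ Finset.range (q + 1), C (1 / (2 ^ r * (r.factorial : K))) *
          B r f (pderiv b g) := by
      simp only [Finset.mul_sum]
      rw [Finset.sum_comm]
      refine Finset.sum_congr rfl fun b _ => Finset.sum_congr rfl fun r _ => ?_
      ring
    rw [e4, ← Finset.sum_add_distrib]
    refine Finset.sum_congr rfl fun b _ => ?_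
    rw [hd b, star_C h1, mul_add]
  rw [e3]
  ring

end star

theorem t_STAR (h1 : S_BADD) (h2 : S_BX) (h3 : S_BDER) (h4 : S_BZERO) (h5 : S_IND) : S_STAR := by
  intro K _ _ n Lam hLam q g hg
  let M : Submodule K (Weyl K n) :=
    { carrier := {a | Lam a g = starOp q g (Lam a 1)}
      add_mem' := by
        intro a b ha hb
        simp only [Set.mem_setOf_eq] at ha hb ⊢
        rw [map_add, LinearMap.add_apply, LinearMap.add_apply, star_add h1, ha, hb]
      zero_mem' := by
        simp only [Set.mem_setOf_eq]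
        rw [map_zero, LinearMap.zero_apply, LinearMap.zero_apply, star_zero h1]
      smul_mem' := by
        intro c a ha
        simp only [Set.mem_setOf_eq] at ha ⊢
        rw [map_smul, LinearMap.smul_apply, LinearMap.smul_apply, smul_eq_C_mul, smul_eq_C_mul,
          star_C h1, ha] }
  have h := h5 K n M (by
    show Lam 1 g = starOp q g (Lam 1 1)
    rw [map_one, Module.End.one_apply, Module.End.one_apply, star_one h1]) (by
    intro i a ha
    have ha' : Lam a g = starOp q g (Lam a 1) := ha
    show Lam (y i * a) g = starOp q g (Lam (y i * a) 1)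
    rw [map_mul, Module.End.mul_apply, Module.End.mul_apply, hLam, ha',
      star_Lop h1 h2 h3 h4 hg])
  exact fun a => h a

end Pool.Agent.H119R3.DX
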