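import Pool.Agent.H119R3.DX.Defs

namespace Pool.Agent.H119R3.DX

open MvPolynomial

theorem WH_om (K : Type) [Field K] {n : ℕ} (g h : Ix n) : om K g h = - om K h g := by
  rcases g with i | i <;> rcases h with j | j
  · simp [om]
  · by_cases hij : i = j
    · subst hij; simp [om]
    · have : ¬ j = i := fun h => hij h.symm
      simp [om, hij, this]
  · by_cases hij : i = j
    · subst hij; simp [om]
    · have : ¬ j = i := fun h => hij h.symm
      simp [om, hij, this]
  · simp [om]

theorem WH_anti (K : Type) [Field K] [CharZero K] {n : ℕ} (v : Ix n → K) :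
    ∑ g, ∑ h, v g * (om K g h * v h) = 0 := by
  have h1 : ∑ g, ∑ h, v g * (om K g h * v h) = - ∑ g, ∑ h, v g * (om K g h * v h) := by
    conv_lhs => rw [Finset.sum_comm]
    rw [← Finset.sum_neg_distrib]
    refine Finset.sum_congr rfl fun g _ => ?_
    rw [← Finset.sum_neg_distrib]
    refine Finset.sum_congr rfl fun h _ => ?_
    rw [WH_om K h g]
    ring
  exact self_eq_neg.1 h1

theorem WH_step (K : Type) [Field K] [CharZero K] {n : ℕ} (v : Ix n → K) (k : ℕ) :
    ∑ g, v g • Lop g ((∑ g, C (v g) * X g : P K n) ^ k) = (∑ g, C (v g) * X g : P K n) ^ (k + 1) := by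
  set l : P K n := ∑ g, C (v g) * X g with hl
  have hd : ∀ h : Ix n, pderiv h l = C (v h) := by
    intro h
    rw [hl, map_sum, Finset.sum_eq_single h]
    · rw [pderiv_C_mul, pderiv_X_self, mul_one]
    · intro g _ hg
      rw [pderiv_C_mul, pderiv_X_of_ne hg, mul_zero]
    · intro h2; exact absurd (Finset.mem_univ _) h2
  have h1 : ∀ g : Ix n, v g • Lop g (l ^ k) = (C (v g) * X g) * l ^ k +
      ((k : P K n) * l ^ (k - 1) * C (1 / 2)) * C (∑ h, v g * (om K g h * v h)) := by
    intro g
    change v g • (X g * l ^ k + C (1 / 2) * ∑ h, C (om K g h) * pderiv h (l ^ k)) = _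
    rw [smul_eq_C_mul, mul_add, map_sum]
    congr 1
    · ring
    · rw [Finset.mul_sum, Finset.mul_sum, Finset.mul_sum]
      refine Finset.sum_congr rfl fun h _ => ?_
      rw [Derivation.leibniz_pow, hd, C_mul, C_mul, nsmul_eq_mul, smul_eq_mul]
      ring
  rw [Finset.sum_congr rfl fun g _ => h1 g, Finset.sum_add_distrib, ← Finset.sum_mul,
    ← Finset.mul_sum, ← map_sum, WH_anti, map_zero, mul_zero, add_zero, ← hl, pow_succ']

theorem t_WH : S_WH := by
  intro K _ _ n Lam hL d a ha
  have hpow : ∀ (v : Ix n → K) (k : ℕ),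
      Lam ((∑ g, v g • (y g : Weyl K n)) ^ k) 1 = (∑ g, C (v g) * X g : P K n) ^ k := by
    intro v k
    induction k with
    | zero => simp
    | succ k ih =>
      rw [pow_succ', map_mul, Module.End.mul_apply, ih, ← WH_step K v k]
      rw [map_sum, LinearMap.sum_apply]
      refine Finset.sum_congr rfl fun g _ => ?_
      rw [map_smul, hL, LinearMap.smul_apply]
  refine Submodule.span_induction (p := fun a _ => (Lam a 1).IsHomogeneous d) ?_ ?_ ?_ ?_ ha
  · rintro _ ⟨v, rfl⟩
    simp only []
    rw [hpow]
    have h1 : (∑ g, C (v g) * X g : P K n).IsHomogeneous 1 := by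
      refine IsHomogeneous.sum _ _ _ fun g _ => ?_
      have := (isHomogeneous_C (Ix n) (v g)).mul (isHomogeneous_X K g)
      simpa using this
    have := h1.pow d
    simpa using this
  · rw [map_zero, LinearMap.zero_apply]
    exact isHomogeneous_zero _ _ _
  · intro x y _ _ hx hy
    rw [map_add, LinearMap.add_apply]
    exact hx.add hy
  · intro c x _ hx
    rw [map_smul, LinearMap.smul_apply, smul_eq_C_mul]
    have := (isHomogeneous_C (Ix n) c).mul hx
    simpa using this

end Pool.Agent.H119R3.DX
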