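import Pool.Agent.H119R3.DX.BADD
import Pool.Agent.H119R3.DX.BDER
import Pool.Agent.H119R3.DX.BHOM
import Pool.Agent.H119R3.DX.BSYM
import Pool.Agent.H119R3.DX.BX
import Pool.Agent.H119R3.DX.COM
import Pool.Agent.H119R3.DX.COMM
import Pool.Agent.H119R3.DX.CY
import Pool.Agent.H119R3.DX.DEG2
import Pool.Agent.H119R3.DX.EULER
import Pool.Agent.H119R3.DX.EVEN
import Pool.Agent.H119R3.DX.EXP
import Pool.Agent.H119R3.DX.GEN
import Pool.Agent.H119R3.DX.HAM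
import Pool.Agent.H119R3.DX.ID
import Pool.Agent.H119R3.DX.IND
import Pool.Agent.H119R3.DX.LIFT
import Pool.Agent.H119R3.DX.LREL
import Pool.Agent.H119R3.DX.PBW
import Pool.Agent.H119R3.DX.SEP
import Pool.Agent.H119R3.DX.STAR
import Pool.Agent.H119R3.DX.WH

/-!
# Assembly
-/

namespace Pool.Agent.H119R3.DX

theorem f_BX : S_BX := t_BX t_BADD
theorem f_PBW : S_PBW := t_PBW t_CY t_IND
theorem f_STAR : S_STAR := t_STAR t_BADD f_BX t_BDER t_BZERO t_IND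
theorem f_COMM : S_COMM := t_COMM f_STAR t_BSYM t_BZERO
theorem f_HAM : S_HAM := t_HAM f_COMM f_PBW t_BHOM
theorem f_EXP : S_EXP := t_EXP t_LIFT t_IND t_CY
theorem f_SEP : S_SEP := t_SEP t_LREL f_COMM t_BHOM t_CY
theorem f_SEPC : S_SEPC := t_SEPC f_COMM t_BHOM t_CY
theorem f_ID : S_ID :=
  t_ID t_LREL t_LIFT t_CY t_BADD t_EULER t_WH f_COMM f_SEP f_HAM f_PBW f_EXP
theorem f_IDC : S_IDC :=
  t_IDC t_LREL t_LIFT t_CY t_BADD t_EULER t_WH f_COMM f_SEPC f_HAM f_PBW f_EXP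
theorem f_EVEN : S_EVEN := t_EVEN t_LREL f_COMM t_BHOM f_PBW t_WH t_CY t_LIFT
theorem f_GEN : S_GEN := t_GEN f_ID t_LIFT t_IND t_CY t_LREL
theorem f_GENC : S_GENC := t_GENC f_IDC t_LIFT t_IND t_CY t_LREL
theorem f_DEG2 : S_DEG2 := t_DEG2 f_GEN f_EVEN t_CY

/-- the main theorem -/
theorem main (K : Type) [Field K] [CharZero K] (n d : ℕ) (hd : 2 ≤ d)
    (φ : Weyl K n →ₐ[K] Weyl K n) (c : Ix n → K) (l D : Ix n → Weyl K n)
    (hφ : ∀ g, φ (y g) = algebraMap K (Weyl K n) (c g) + l g + D g)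
    (hl : ∀ g, l g ∈ W K n 1) (hD : ∀ g, D g ∈ W K n d)
    (h : d % 2 = 0 ∨ ((∀ g h, l g * l h - l h * l g = algebraMap K (Weyl K n) (om K g h)) ∧
      (d % 4 = 3 ∨ ∀ g h, D g * D h = D h * D g))) : Function.Bijective φ := by
  rcases h with h | ⟨hs, h | h⟩
  · exact f_GEN K n d hd (by omega) φ c l D hφ hl hD (f_EVEN K n d hd h φ c l D hφ hl hD)
  · exact f_GEN K n d hd (by omega) φ c l D hφ hl hD hs
  · exact f_GENC K n d hd φ c l D hφ hl hD h hs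

end Pool.Agent.H119R3.DX
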