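import Pool.Agent.H119R3.DX.Defs

/-!
# Task HAM: the Hamiltonian
-/

namespace Pool.Agent.H119R3.DX

open MvPolynomial

section

variable {K : Type} [Field K] {n : ℕ}

theorem HAM_om_anti (g h : Ix n) : om K g h = - om K h g := by
  rcases g with i | i <;> rcases h with j | j <;> simp only [om]
  · simp
  · by_cases hij : i = j
    · subst hij; simp
    · have : ¬ j = i := fun h => hij h.symm
      simp [hij, this]
  · by_cases hij : i = j
    · subst hij; simp
    · have : ¬ j = i := fun h => hij h.symm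
      simp [hij, this]
  · simp

/-- `∑ b, om g b • F b` -/
theorem HAM_sum_inr (i : Fin n) (F : Ix n → P K n) :
    ∑ b, C (om K (Sum.inr i) b) * F b = F (Sum.inl i) := by
  rw [Fintype.sum_sum_type]
  have h1 : ∀ j : Fin n, C (om K (Sum.inr i) (Sum.inl j)) * F (Sum.inl j) =
      if i = j then F (Sum.inl j) else 0 := by
    intro j
    by_cases h : i = j <;> simp [om, h]
  have h2 : ∀ j : Fin n, C (om K (Sum.inr i) (Sum.inr j)) * F (Sum.inr j) = 0 := by
    intro j
    simp [om]
  rw [Finset.sum_congr rfl (fun j _ => h1 j), Finset.sum_congr rfl (fun j _ => h2 j)]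
  simp

theorem HAM_sum_inl (i : Fin n) (F : Ix n → P K n) :
    ∑ b, C (om K (Sum.inl i) b) * F b = - F (Sum.inr i) := by
  rw [Fintype.sum_sum_type]
  have h1 : ∀ j : Fin n, C (om K (Sum.inl i) (Sum.inr j)) * F (Sum.inr j) =
      if i = j then - F (Sum.inr j) else 0 := by
    intro j
    by_cases h : i = j <;> simp [om, h]
  have h2 : ∀ j : Fin n, C (om K (Sum.inl i) (Sum.inl j)) * F (Sum.inl j) = 0 := by
    intro j
    simp [om]
  rw [Finset.sum_congr rfl (fun j _ => h1 j), Finset.sum_congr rfl (fun j _ => h2 j)]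
  simp

/-- `∑ a, om a g • F a = - ∑ a, om g a • F a` -/
theorem HAM_sum_swap (g : Ix n) (F : Ix n → P K n) :
    ∑ a, C (om K a g) * F a = - ∑ a, C (om K g a) * F a := by
  rw [← Finset.sum_neg_distrib]
  refine Finset.sum_congr rfl fun a _ => ?_
  rw [HAM_om_anti a g, map_neg, neg_mul]

theorem HAM_B1_X_left (g : Ix n) (f : P K n) :
    B 1 (X g) f = ∑ b, C (om K g b) * pderiv b f := by
  simp only [B]
  rw [Finset.sum_eq_single g]
  · simp [pderiv_X_self]
  · intro a _ ha
    refine Finset.sum_eq_zero fun b _ => ?_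
    rw [pderiv_X_of_ne (Ne.symm ha)]
    simp
  · intro h; exact absurd (Finset.mem_univ _) h

theorem HAM_B1_X_right (g : Ix n) (f : P K n) :
    B 1 f (X g) = ∑ a, C (om K a g) * pderiv a f := by
  simp only [B]
  refine Finset.sum_congr rfl fun a _ => ?_
  rw [Finset.sum_eq_single g]
  · simp [pderiv_X_self]
  · intro b _ hb
    rw [pderiv_X_of_ne (Ne.symm hb)]
    simp
  · intro h; exact absurd (Finset.mem_univ _) h

theorem HAM_filter (m : ℕ) (hm : m = 1) :
    (Finset.range (m + 1)).filter (fun r => r % 2 = 1) = {1} := by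
  subst hm
  decide

/-- the commutator of an element of degree `p ≥ 1` and one of degree `1`, and vice versa -/
theorem HAM_comm [CharZero K] (h1 : S_COMM) (Lam : Weyl K n →ₐ[K] Module.End K (P K n))
    (hLam : ∀ g, Lam (y g) = Lop g) (p q : ℕ) (a b : Weyl K n) (ha : (Lam a 1).IsHomogeneous p)
    (hb : (Lam b 1).IsHomogeneous q) (hm : min p q = 1) :
    Lam (a * b - b * a) 1 = B 1 (Lam a 1) (Lam b 1) := by
  rw [h1 K n Lam hLam p q a b ha hb, HAM_filter _ hm, Finset.sum_singleton]
  have : (2 : K) / (2 ^ 1 * ((1 : ℕ).factorial : K)) = 1 := by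
    simp
  rw [this, map_one, one_mul]

end

theorem t_HAM (h1 : S_COMM) (h2 : S_PBW) (_h3 : S_BHOM) : S_HAM := by
  intro K _ _ n Lam hLam d D hd hD hcl
  have hd0 : ((d : K) + 1) ≠ 0 := by exact_mod_cast Nat.succ_ne_zero d
  -- symbols of the generators
  have hy : ∀ g : Ix n, Lam (y g) 1 = X g := by
    intro g
    rw [hLam]
    simp [Lop]
  have hy1 : ∀ g : Ix n, (Lam (y g) 1).IsHomogeneous 1 := by
    intro g
    rw [hy]
    exact isHomogeneous_X K g
  set f : Ix n → P K n := fun g => Lam (D g) 1 with hf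
  -- closedness
  have hcl' : ∀ g h, (∑ b, C (om K g b) * pderiv b (f h)) +
      ∑ a, C (om K a h) * pderiv a (f g) = 0 := by
    intro g h
    have e := congrArg (fun a => Lam a (1 : P K n)) (hcl g h)
    simp only [map_add, LinearMap.add_apply, map_zero, LinearMap.zero_apply] at e
    rw [HAM_comm h1 Lam hLam 1 d _ _ (hy1 g) (hD h) (by omega),
      HAM_comm h1 Lam hLam d 1 _ _ (hD g) (hy1 h) (by omega), hy, hy, HAM_B1_X_left,
      HAM_B1_X_right] at e
    exact e
  -- the one form
  let E : Ix n → Weyl K n := fun m => match m with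
    | Sum.inr i => D (Sum.inl i)
    | Sum.inl i => - D (Sum.inr i)
  let e : Ix n → P K n := fun m => match m with
    | Sum.inr i => f (Sum.inl i)
    | Sum.inl i => - f (Sum.inr i)
  have heE : ∀ m, Lam (E m) 1 = e m := by
    intro m
    rcases m with i | i
    · show Lam (- D (Sum.inr i)) 1 = - f (Sum.inr i)
      rw [map_neg]; rfl
    · rfl
  have hehom : ∀ m, (e m).IsHomogeneous d := by
    intro m
    rcases m with i | i
    · exact (hD (Sum.inr i)).neg
    · exact hD (Sum.inl i)
  -- sum of om with e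
  have hsume : ∀ g, ∑ a, C (om K a g) * e a = f g := by
    intro g
    rw [HAM_sum_swap]
    rcases g with i | i
    · rw [HAM_sum_inl, neg_neg]
    · rw [HAM_sum_inr]
      show - (- f (Sum.inr i)) = _
      rw [neg_neg]
  have hsym : ∀ a b, pderiv a (e b) = pderiv b (e a) := by
    intro a b
    rcases a with i | i <;> rcases b with j | j
    · show pderiv (Sum.inl i) (- f (Sum.inr j)) = pderiv (Sum.inl j) (- f (Sum.inr i))
      have := hcl' (Sum.inr i) (Sum.inr j)
      rw [HAM_sum_swap, HAM_sum_inr, HAM_sum_inr] at this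
      rw [map_neg, map_neg]
      linear_combination -this
    · show pderiv (Sum.inl i) (f (Sum.inl j)) = pderiv (Sum.inr j) (- f (Sum.inr i))
      have := hcl' (Sum.inr i) (Sum.inl j)
      rw [HAM_sum_swap, HAM_sum_inr, HAM_sum_inl] at this
      rw [map_neg]
      linear_combination this
    · show pderiv (Sum.inr i) (- f (Sum.inr j)) = pderiv (Sum.inl j) (f (Sum.inl i))
      have := hcl' (Sum.inr j) (Sum.inl i)
      rw [HAM_sum_swap, HAM_sum_inr, HAM_sum_inl] at this
      rw [map_neg]
      linear_combination -this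
    · show pderiv (Sum.inr i) (f (Sum.inl j)) = pderiv (Sum.inr j) (f (Sum.inl i))
      have := hcl' (Sum.inl i) (Sum.inl j)
      rw [HAM_sum_swap, HAM_sum_inl, HAM_sum_inl] at this
      linear_combination -this
  -- the antisymmetric sum vanishes
  have hzero : ∑ m, ∑ k, C (om K m k) * pderiv k (e m) = 0 := by
    have hS : ∑ m, ∑ k, C (om K m k) * pderiv k (e m) =
        - ∑ m, ∑ k, C (om K m k) * pderiv k (e m) := by
      conv_lhs => rw [Finset.sum_comm]
      rw [← Finset.sum_neg_distrib]
      refine Finset.sum_congr rfl fun k _ => ?_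
      rw [← Finset.sum_neg_distrib]
      refine Finset.sum_congr rfl fun m _ => ?_
      rw [HAM_om_anti m k, hsym k m, map_neg, neg_mul]
    have h2S : (2 : P K n) * ∑ m, ∑ k, C (om K m k) * pderiv k (e m) = 0 := by
      linear_combination hS
    have h2 : (2 : P K n) ≠ 0 := two_ne_zero
    exact (mul_eq_zero.1 h2S).resolve_left h2
  -- the Hamiltonian
  let H : Weyl K n := ((d : K) + 1)⁻¹ • ∑ m, y m * E m
  have hH : Lam H 1 = C ((d : K) + 1)⁻¹ * ∑ m, X m * e m := by
    have e1 : Lam H 1 = ((d : K) + 1)⁻¹ • ∑ m, Lam (y m * E m) 1 := by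
      show Lam (((d : K) + 1)⁻¹ • ∑ m, y m * E m) 1 = _
      rw [map_smul, map_sum, LinearMap.smul_apply, LinearMap.sum_apply]
    have e2 : ∀ m, Lam (y m * E m) 1 = X m * e m + C (1 / 2) * ∑ k, C (om K m k) *
        pderiv k (e m) := by
      intro m
      rw [map_mul, Module.End.mul_apply, heE, hLam]
      rfl
    rw [e1, Finset.sum_congr rfl (fun m _ => e2 m), Finset.sum_add_distrib, ← Finset.mul_sum,
      hzero, mul_zero, add_zero, smul_eq_C_mul]
  have hHhom : (Lam H 1).IsHomogeneous (d + 1) := by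
    rw [hH]
    refine IsHomogeneous.C_mul (IsHomogeneous.sum _ _ _ fun m _ => ?_) _
    rw [add_comm d 1]
    exact (isHomogeneous_X K m).mul (hehom m)
  have hder : ∀ k, pderiv k (Lam H 1) = e k := by
    intro k
    rw [hH, pderiv_C_mul, map_sum]
    have e3 : ∀ m, pderiv k (X m * e m) = pderiv k (X m) * e m + X m * pderiv m (e k) := by
      intro m
      rw [Derivation.leibniz, hsym k m]
      simp only [smul_eq_mul]
      ring
    rw [Finset.sum_congr rfl (fun m _ => e3 m), Finset.sum_add_distrib,
      (hehom k).sum_X_mul_pderiv]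
    have e4 : ∑ m, pderiv k (X m : P K n) * e m = e k := by
      rw [Finset.sum_eq_single k]
      · simp [pderiv_X_self]
      · intro m _ hm
        rw [pderiv_X_of_ne hm, zero_mul]
      · intro h; exact absurd (Finset.mem_univ _) h
    rw [e4]
    have e5 : e k + d • e k = C ((d : K) + 1) * e k := by
      rw [map_add, map_one, nsmul_eq_mul, add_mul, one_mul, add_comm]
      congr 1
    rw [e5, ← mul_assoc, ← map_mul, inv_mul_cancel₀ hd0, map_one, one_mul]
  refine ⟨H, hHhom, ?_, ?_⟩
  · intro g
    have e6 : Lam (H * y g - y g * H - D g) 1 = 0 := by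
      rw [map_sub Lam, LinearMap.sub_apply,
        HAM_comm h1 Lam hLam (d + 1) 1 H (y g) hHhom (hy1 g) (by omega), hy, HAM_B1_X_right]
      simp only [hder]
      rw [hsume]
      simp [hf]
    exact sub_eq_zero.1 (h2 K n Lam hLam _ e6)
  · intro m
    rw [hder]
    rcases m with i | i
    · refine ⟨Pi.single (Sum.inr i) (-1), ?_⟩
      rw [Finset.sum_eq_single (Sum.inr i)]
      · show - f (Sum.inr i) = _
        simp [hf]
      · intro g _ hg
        simp [Pi.single_eq_of_ne hg]
      · intro h; exact absurd (Finset.mem_univ _) h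
    · refine ⟨Pi.single (Sum.inl i) 1, ?_⟩
      rw [Finset.sum_eq_single (Sum.inl i)]
      · show f (Sum.inl i) = _
        simp [hf]
      · intro g _ hg
        simp [Pi.single_eq_of_ne hg]
      · intro h; exact absurd (Finset.mem_univ _) h

end Pool.Agent.H119R3.DX
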